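import Pool.Agent.Work.MP_f7ef37_lc.Up.Defs

/-!
# Statements of the items

Every docstring contains the complete proof.
-/

set_option autoImplicit false

open Finset

namespace Pool.Agent.Work.MP_f7ef37_lc.Up

/-! ## The calculus -/

/-- ITEM Mono (short). `Der t A l → Der t A' l` for `A ⊆ A'` by induction (`Step` is monotone in
the set of available lines); the rest is immediate. -/
def S_Mono : Prop := ∀ (m n t k k' : ℕ) (A A' B B' : Set (Line m n)),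
  A ⊆ A' → B' ⊆ B → k ≤ k' → DS t A B k → DS t A' B' k'

/-- ITEM Trans (short). Let `l₁` derive `B` from `A` and `l₂` derive `C` from `A ∪ B`. Then
`l₂ ++ l₁` derives `B ∪ C` from `A`: `Der t A (l₂ ++ l₁)` by induction on the derivation `l₂`,
since `(A ∪ B) ∪ {G | G ∈ l} ⊆ A ∪ {G | G ∈ l ++ l₁}` and `Step` is monotone. -/
def S_Trans : Prop := ∀ (m n t k k' : ℕ) (A B C : Set (Line m n)),
  DS t A B k → DS t (A ∪ B) C k' → DS t A (B ∪ C) (k + k')

/-- ITEM One (short). The list `[F]`. -/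
def S_One : Prop := ∀ (m n t : ℕ) (A : Set (Line m n)) (F : Line m n),
  Ok t F → Step A F → DS t A {F} 1

/-- ITEM Fam (short). Induction on `X` with `S_Trans` and `S_Mono` (a derivation from `A` is also
one from `A ∪ ...`); the empty family is derived by the empty list. -/
def S_Fam : Prop := ∀ (ι : Type) (m n t k : ℕ) (A : Set (Line m n)) (X : Finset ι)
  (F : ι → Line m n), (∀ x ∈ X, DS t A {F x} k) → DS t A {G | ∃ x ∈ X, G = F x} (X.card * k)

/-- ITEM Repl (medium). Replacing all terms of `B` by `H`. Induction on `B`. For `B = ∅` the line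
`(G \ ∅) ∪ H` follows from `G` by weakening (one line, `S_One`). For `insert T B'` put
`K = (G \ B') ∪ H`, which is `Ok t` and derived by the induction hypothesis. If `T ∈ K` apply the
hypothesis to `T` and `K` and note `K.erase T ∪ H = (G \ insert T B') ∪ H`; if `T ∉ K` then
`(G \ insert T B') ∪ H = K`. Compose with `S_Trans`, `S_Mono`. -/
def S_Repl : Prop := ∀ (m n t k : ℕ) (A : Set (Line m n)) (G B H : Line m n),
  G ∈ A → Ok t G → Ok t H →
  (∀ T ∈ B, ∀ K : Line m n, Ok t K → T ∈ K → DS t (A ∪ {K}) {K.erase T ∪ H} k) →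
  DS t A {(G \ B) ∪ H} (B.card * k + 1)

/-- ITEM Conf (medium). Removing a term by a collision axiom: three lines. First
`F₁ = insert {(p', y, true)} (K.erase T)` (conjunction elimination, `Ok` since `1 ≤ t`), then the
axiom `F₂ = {{(p, y, false)}, {(p', y, false)}}`, then the cut on `{(p', y, true)} ∈ F₁`, whose
`negs` is `{{(p', y, false)}} ⊆ F₂`: the result is contained in
`K.erase T ∪ {{(p, y, false)}} ⊆ K.erase T ∪ H`. -/
def S_Conf : Prop := ∀ (m n t : ℕ) (K H : Line m n) (T : Term m n) (p p' : Fin m) (y : Fin n),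
  1 ≤ t → Ok t K → Ok t H → T ∈ K → p ≠ p' → (p', y, true) ∈ T →
  ({(p, y, false)} : Term m n) ∈ H → DS t {K} {K.erase T ∪ H} 3

/-- ITEM Ext (medium). Lengthening a term: two lines. The axiom
`E = {{(P, x, true)}, {(P, x, false)}}` and conjunction introduction from `K ∋ T` and
`E ∋ T' = {(P, x, true)}`: `K.erase T ∪ E.erase T' ∪ {T ∪ T'} ⊆ K.erase T ∪ H`. -/
def S_Ext : Prop := ∀ (m n t : ℕ) (K H : Line m n) (T : Term m n) (P : Fin m) (x : Fin n),
  1 ≤ t → Ok t K → Ok t H → T ∈ K → T ∪ {(P, x, true)} ∈ H →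
  ({(P, x, false)} : Term m n) ∈ H → DS t {K} {K.erase T ∪ H} 2

/-- ITEM Cut (short). One application of the cut rule: `K.erase T ∪ (N \ negs T)` is contained in
`K.erase T ∪ H`. -/
def S_Cut : Prop := ∀ (m n t : ℕ) (A : Set (Line m n)) (K N H : Line m n) (T : Term m n),
  Ok t K → Ok t H → K ∈ A → N ∈ A → T ∈ K → negs T ⊆ N → N ⊆ H ∪ negs T →
  DS t A {K.erase T ∪ H} 1

/-- ITEM Conv (medium). From a list to an indexed family. `∅ ∈ l` (as `∅ ∈ {∅}` and it is not in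
the empty set `A`), so `l = l₁ ++ ∅ :: l₂` and `Der t ∅ (∅ :: l₂)` (a tail of a derivation is a
derivation). Put `k' = l₂.length` and `P s = (∅ :: l₂).get` of the index `k' - s` (reversed list);
by induction on the list, the line number `s` follows by one step from the lines with smaller
number. -/
def S_Conv : Prop := ∀ (m n t k : ℕ), DS t (∅ : Set (Line m n)) {∅} k →
  ∃ k' : ℕ, k' + 1 ≤ k ∧ ∃ P : Fin (k' + 1) → Line m n, (∀ s, Ok t (P s)) ∧
    P (Fin.last k') = ∅ ∧ ∀ s, Step {G | ∃ r, r < s ∧ P r = G} (P s)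

/-- ITEM Sz (medium). The sets `T` of literals with `T.card ≤ t` number at most
`(2 m n + 1) ^ t = U t m n`: every such `T` is the set of the `some`-values of a function
`Fin t → Option (Lit m n)` (surjection; there are `2 m n` literals). So `F.card ≤ U t m n`, and
the sum is at most `F.card * t`. -/
def S_Sz : Prop := ∀ (m n t : ℕ) (F : Line m n), Ok t F →
  F.card ≤ U t m n ∧ ∑ T ∈ F, T.card ≤ t * U t m n

/-! ## Paths -/

/-- ITEM CnOk (short). A term of `k ≥ 1` reads is a nonempty image of `range k`. (For the last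
part: unions of `Ok` lines are `Ok`.) -/
def S_CnOk : Prop := ∀ (m n L t k z : ℕ) (D : Data m n L) (w : ℕ → Fin L) (x c : Fin n),
  1 ≤ k → k ≤ t → Ok t (Cn D k w x) ∧ Ok t (Pg D k c z) ∧
  (∀ Γ X, Ok t Γ → Ok t (Gz D Γ k z X)) ∧
  (∀ (Γ : Line m n) (k' : ℕ) (w' : ℕ → Fin L) X j, k' + 1 ≤ t → Ok t Γ → Ok t (Ctx D Γ k' w' X j))

/-- ITEM NegsOk (short). `negs T` consists of singletons. -/
def S_NegsOk : Prop := ∀ (m n t : ℕ) (T : Term m n), 1 ≤ t → Ok t (negs T)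

/-- ITEM ExtT (short). Let `T = term D c p k`, `node D c p k = x`, `c` in the block `(k, w)`. Put
`l = D.dig c k` and `p' = Function.update p k (D.enc X)`. Then `node D c p' i = node D c p i` for
`i ≤ k`, so `term D c p' (k+1) = T ∪ {(D.enc X, x, true)}` and
`node D c p' (k+1) = D.dec (D.enc X) l = X l`; and `c` is in the block
`(k+1, Function.update w k l)`. -/
def S_ExtT : Prop := ∀ (m n L k : ℕ) (D : Data m n L) (w : ℕ → Fin L) (x : Fin n)
  (T : Term m n) (X : Fin L → Fin n), T ∈ Cn D k w x →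
  ∃ l : Fin L, T ∪ {(D.enc X, x, true)} ∈ Cn D (k + 1) (Function.update w k l) (X l)

/-- ITEM ConfT (short). If the two paths end in different holes, then their answers are not all
equal; let `i < k` be the first index with `p i ≠ p' i`. Then `node D c p i = node D c p' i = y`,
`(p' i, y, true) ∈ term D c p' k` and `{(p i, y, false)} ∈ negs (term D c p k)`. -/
def S_ConfT : Prop := ∀ (m n L k : ℕ) (D : Data m n L) (c : Fin n) (p p' : ℕ → Fin m),
  node D c p k ≠ node D c p' k → ∃ (a b : Fin m) (y : Fin n), a ≠ b ∧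
    (b, y, true) ∈ term D c p' k ∧ ({(a, y, false)} : Term m n) ∈ negs (term D c p k)

/-- ITEM Top (short). The pigeon axiom of `D.enc X` is contained in `Ctx D ∅ 0 w X L`: for every
hole `c` put `l = D.dig c 0`; the term `{(D.enc X, c, true)}` is `term D c p 1` for the constant
`p = D.enc X`, it ends in `node D c p 1 = D.dec (D.enc X) l = X l`, and `c` is in the block
`(1, Function.update w 0 l)`. So two lines: the axiom and the weakening. -/
def S_Top : Prop := ∀ (m n L t : ℕ) (D : Data m n L) (w : ℕ → Fin L) (X : Fin L → Fin n),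
  1 ≤ t → DS t ∅ {Ctx D ∅ 0 w X L} 2

/-! ## The steps -/

/-- ITEM Mer (long). MERGING THE CODES. Put `P = D.enc X`, `Z = Ctx D Γ k w X L`. (1) For every
hole `x`: from `Γ ∪ Cn D k w x` derive `Z ∪ {{(P, x, false)}}` by `S_Repl` with
`B = Cn D k w x`, `H = Z ∪ {{(P, x, false)}}`, `k = 2` (`S_Ext`: by `S_ExtT` the term
`T ∪ {(P, x, true)}` is in `Z`), and then one weakening: at most `2 B.card + 2` lines,
`B.card ≤ U t m n` (`S_Sz`, `S_CnOk`). (2) The pigeon axiom `pig P`: one line. (3) `S_Repl` with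
`G = B = pig P`, `H = Z`, `k = 1`: the term `{(P, x, true)}` is cut (`S_Cut`) against
`Z ∪ {{(P, x, false)}}`, since `negs {(P, x, true)} = {{(P, x, false)}}`: `n + 1` lines (`pig P`
has at most `n` terms), the result is `Z`. Total at most
`n (2 U + 2) + 1 + n + 1 ≤ 5 n U` for `n ≥ 2` (if `m = 0` there is no `P`; so `m ≥ 1`, and
`U ≥ 2 m n + 1 ≥ 5` as `t ≥ 1`). Use `S_Fam` for (1) and `S_Trans`, `S_Mono` for the
composition. -/
def S_Mer : Prop := ∀ (m n L t k : ℕ) (D : Data m n L) (w : ℕ → Fin L) (Γ : Line m n)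
  (X : Fin L → Fin n), 2 ≤ n → 1 ≤ k → k + 1 ≤ t → Ok t Γ →
  DS t {F | ∃ x : Fin n, F = Γ ∪ Cn D k w x} {Ctx D Γ k w X L} (5 * n * U t m n)

/-- ITEM StB (long). Put `A = {F | ∃ X, F = Ctx D Γ k w X L}`. Claim: for `j ≤ L`,
`DS t A {F | ∃ X, F = Ctx D Γ k w X j} ((L - j) * (n ^ L * N))`, by induction on `L - j`. For
`j = L` the empty list. Step from `j + 1` to `j`: for every `X` apply the hypothesis to the line
`Γ' = Ctx D Γ k w X j` (which is `Ok t`, `S_CnOk`) and `w' = Function.update w k j`: its premises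
`Γ' ∪ Cn D (k+1) w' x` are equal to `Ctx D Γ k w (Function.update X j x) (j + 1)` (the indices
`l < j + 1` are the `l < j` and `l = j`), which are derived already. Use `S_Fam` over all
`X : Fin L → Fin n` (there are `n ^ L`), `S_Trans`, `S_Mono`. Finally `j = 0`:
`Ctx D Γ k w X 0 = Γ`, and some `X` exists since `n ≥ 1`. -/
def S_StB : Prop := ∀ (m n L t k N : ℕ) (D : Data m n L) (w : ℕ → Fin L) (Γ : Line m n),
  1 ≤ n → k + 1 ≤ t → Ok t Γ →
  (∀ (Γ' : Line m n) (w' : ℕ → Fin L), Ok t Γ' →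
    DS t {F | ∃ x : Fin n, F = Γ' ∪ Cn D (k + 1) w' x} {Γ'} N) →
  DS t {F | ∃ X : Fin L → Fin n, F = Ctx D Γ k w X L} {Γ} (L * (n ^ L * N))

/-- ITEM Lf1 (medium). `T = term D c p t` ends in the hole number `z`. From
`G = Gz D Γ t (z + 1) (insert c X)` derive `Gz D Γ t z X ∪ negs T` by `S_Repl` with
`B = Pg D t c (z + 1)`, `H = Gz D Γ t z X ∪ negs T`, `k = 3`: every `T' ∈ B` is `term D c p' t`
with an end number `≥ z + 1`, so by `S_ConfT` and `S_Conf` it can be replaced by `H`. The result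
`(G \ B) ∪ H` is equal to `H` (`Pg D t c' (z+1) ⊆ Pg D t c' z` for `c' ∈ X`). Number of lines:
`3 B.card + 1 ≤ 3 U + 1` (`S_Sz`, `S_CnOk`). -/
def S_Lf1 : Prop := ∀ (m n L t z : ℕ) (D : Data m n L) (Γ : Line m n) (X : Finset (Fin n))
  (c : Fin n) (p : ℕ → Fin m), 1 ≤ t → Ok t Γ → (node D c p t : ℕ) = z →
  DS t {Gz D Γ t (z + 1) (insert c X)} {Gz D Γ t z X ∪ negs (term D c p t)} (3 * U t m n + 1)

/-- ITEM Lf2 (medium). Let `Bk` be the block `(t, w)`, `X ⊆ Bk`, and let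
`E` = set of the terms `term D c p t` with `c ∈ Bk \ X` and end `x` (number `z`). For every
`T ∈ E` derive `Gz D Γ t z X ∪ negs T` (`S_Lf1`, at most `3 U + 1` lines each, `S_Fam`), then
apply `S_Repl` to `G = Γ ∪ Cn D t w x`, `B = E`, `H = Gz D Γ t z X`, `k = 1` (`S_Cut` with
`N = H ∪ negs T`). The result `(G \ E) ∪ H` is `H`: a term of `Cn D t w x` which is not in `E`
starts in some `c ∈ X` and ends in `x`, so it is in `Pg D t c z`. As `E.card ≤ U` (`S_Sz`), the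
number of lines is at most `U (3 U + 1) + U + 1 ≤ 6 U ^ 2` (`U ≥ 1`). -/
def S_Lf2 : Prop := ∀ (m n L t : ℕ) (D : Data m n L) (w : ℕ → Fin L) (Γ : Line m n)
  (X Bk : Finset (Fin n)) (x : Fin n), 1 ≤ t → Ok t Γ → (∀ c, c ∈ Bk ↔ InB D t w c) → X ⊆ Bk →
  DS t ({Γ ∪ Cn D t w x} ∪ {F | ∃ c ∈ Bk \ X, F = Gz D Γ t ((x : ℕ) + 1) (insert c X)})
    {Gz D Γ t x X} (6 * U t m n ^ 2)

/-- ITEM Leaf (medium). Let `b = Bk.card ≤ s < n` and `A = {F | ∃ x, F = Γ ∪ Cn D t w x}`. Claim: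
for `z ≤ b`: `DS t A {F | ∃ X ∈ Bk.powersetCard z, F = Gz D Γ t z X} ((b + 1 - z) * (2^s * M))`
with `M = 6 U ^ 2`, by induction on `b - z`. For `z = b` only `X = Bk`, and
`Γ ∪ Cn D t w ⟨b, _⟩ ⊆ Gz D Γ t b Bk` (one weakening, `1 ≤ 2^s * M`). For `z < b` apply `S_Lf2`
with `x = ⟨z, _⟩` to every `X ∈ Bk.powersetCard z` (the lines `Gz D Γ t (z+1) (insert c X)` with
`c ∈ Bk \ X` are derived already); there are at most `2 ^ b ≤ 2 ^ s` such `X` (`S_Fam`). For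
`z = 0`, `X = ∅` we have `Gz D Γ t 0 ∅ = Γ`. -/
def S_Leaf : Prop := ∀ (m n L t s : ℕ) (D : Data m n L) (w : ℕ → Fin L) (Γ : Line m n)
  (Bk : Finset (Fin n)), 1 ≤ t → Ok t Γ → (∀ c, c ∈ Bk ↔ InB D t w c) → Bk.card ≤ s → s < n →
  DS t {F | ∃ x : Fin n, F = Γ ∪ Cn D t w x} {Γ} ((s + 1) * (2 ^ s * (6 * U t m n ^ 2)))

/-- ITEM Rec (medium). Induction on `j`, `k = t - j`. For `j = 0` this is `S_Leaf` (`NN` of `0`).
Step from `j` (level `k + 1 = t - j`) to `j + 1` (level `k = t - (j + 1) ≥ 1`): first `S_Mer` for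
all `X : Fin L → Fin n` (`S_Fam`, `n ^ L` of them), then `S_StB`; `S_Trans`, `S_Mono`. -/
def S_Rec : Prop := ∀ (m n L t s j : ℕ) (D : Data m n L), 2 ≤ n → s < n → j < t →
  (∀ w : ℕ → Fin L, ∃ Bk : Finset (Fin n), (∀ c, c ∈ Bk ↔ InB D t w c) ∧ Bk.card ≤ s) →
  ∀ (Γ : Line m n) (w : ℕ → Fin L), Ok t Γ →
    DS t {F | ∃ x : Fin n, F = Γ ∪ Cn D (t - j) w x} {Γ} (NN t m n L s j)

/-- ITEM Tot (medium). `S_Top` for all `X` (`S_Fam`), then `S_StB` with `k = 0`, `Γ = ∅`,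
`N = NN t m n L s (t - 1)` (`S_Rec` with `j = t - 1`, level `t - (t - 1) = 1`); `S_Trans`,
`S_Mono`. (For `L = 0` there is no `w : ℕ → Fin L`; but then `Data m n 0` is impossible for
`n ≥ 2` since `D.dig` would give an element of `Fin 0`. For `L ≥ 1` take any `w`.) -/
def S_Tot : Prop := ∀ (m n L t s : ℕ) (D : Data m n L), 2 ≤ n → s < n → 1 ≤ t →
  (∀ w : ℕ → Fin L, ∃ Bk : Finset (Fin n), (∀ c, c ∈ Bk ↔ InB D t w c) ∧ Bk.card ≤ s) →
    DS t (∅ : Set (Line m n)) {∅} (2 * n ^ L + L * (n ^ L * NN t m n L s (t - 1)))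

/-! ## Data and numbers -/

/-- ITEM Dat (medium). Let `e : (Fin L → Fin n) ≃ Fin (n ^ L)` (`finFunctionFinEquiv`),
`enc X = Fin.castLE h (e X)`, `dec p = e.symm ⟨p, _⟩` if `p < n ^ L` and a constant otherwise.
`dig c i = (c / L ^ i) % L`. If `dig c i = dig c' i` for all `i < t` then
`c % L ^ t = c' % L ^ t` (induction on `t`, `Nat.mod_pow_succ`), so the block `(t, w)` injects by
`c ↦ c / L ^ t` into `range s` (`c < n ≤ L ^ t * s`). -/
def S_Dat : Prop := ∀ (m n L t s : ℕ), 1 ≤ n → 1 ≤ L → n ^ L ≤ m → n ≤ L ^ t * s →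
  ∃ D : Data m n L, ∀ w : ℕ → Fin L, ∃ Bk : Finset (Fin n),
    (∀ c, c ∈ Bk ↔ InB D t w c) ∧ Bk.card ≤ s

/-- ITEM Sel (short). `log n = Nat.log 2 n ≤ n - 1 < n`, so `L ≥ 2` (`L = 0`, `L = 1` contradict
`n ≤ L ^ (t+1) * log n`). Take `s = min (L * log n) (n - 1)`: `2 ^ s ≤ (2 ^ log n) ^ L ≤ n ^ L`
(`Nat.pow_log_le_self`), and `L ^ t * (L * log n) = L ^ (t+1) * log n ≥ n`,
`L ^ t * (n - 1) ≥ 2 (n - 1) ≥ n`. -/
def S_Sel : Prop := ∀ (n L t : ℕ), 1 ≤ t → 2 ≤ n → n ≤ L ^ (t + 1) * Nat.log 2 n →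
  2 ≤ L ∧ ∃ s, s < n ∧ 2 ^ s ≤ n ^ L ∧ n ≤ L ^ t * s

/-- ITEM Num (medium). `m ≥ n ^ L ≥ 4`, `L < n ^ L ≤ m`, `s + 1 ≤ n ≤ m`, `2 ^ s ≤ m`, `n ≤ m`.
`V := U t m n = (2 m n + 1) ^ t ≤ (3 m²) ^ t ≤ (m ^ 3) ^ t`. `NN 0 ≤ 6 m² V²`,
`NN (j+1) ≤ m (5 m V) + m² NN j ≤ m² (5 V + NN j)`, so `NN j ≤ m ^ (2 j) (5 j V + 6 m² V²) ≤
6 (j + 1) m ^ (2 j + 2) V ^ 2`. The left side is at most
`(2 m + m² · 6 t m ^ (2 t) V²) (t V) ≤ 8 t² m ^ (2 t + 2) V ^ 3 ≤ 8 t² m ^ (11 t + 2)`, and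
`8 t² ≤ 4 ^ (9 t - 2) ≤ m ^ (9 t - 2)` for `t ≥ 1`. -/
def S_Num : Prop := ∀ (m n L t s : ℕ), 1 ≤ t → 2 ≤ n → 2 ≤ L → n ^ L ≤ m → 2 ^ s ≤ m → s < n →
  (2 * n ^ L + L * (n ^ L * NN t m n L s (t - 1))) * (t * U t m n) ≤ m ^ (20 * t)

/-- ITEM Asy (medium). Choose `t ≥ 1` with `1 / (t + 1) < ε / 2` and `M n = n + 1` for `n < 2`,
`M n = n ^ Lf n` for `n ≥ 2` with `Lf n = ⌈(n : ℝ) ^ (1 / (t + 1))⌉₊ ≥ 2` (as
`(n : ℝ) ^ (1 / (t+1)) > 1`). Then `n ≤ Lf n ^ (t + 1) ≤ Lf n ^ (t+1) * Nat.log 2 n`, and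
`(M n) ^ (20 t) = exp (20 t Lf n log n)`, `Lf n ≤ n ^ (1/(t+1)) + 1 ≤ 2 n ^ (ε/2)`, and
`40 t n ^ (ε/2) log n ≤ n ^ ε` for large `n` (`isLittleO_log_rpow_atTop`). -/
def S_Asy : Prop := ∀ ε : ℝ, 0 < ε → ∃ t : ℕ, 1 ≤ t ∧ ∃ M Lf : ℕ → ℕ, (∀ n, n < M n) ∧
  ∀ᶠ n : ℕ in Filter.atTop, 2 ≤ n ∧ n ^ Lf n ≤ M n ∧ n ≤ Lf n ^ (t + 1) * Nat.log 2 n ∧
    ((M n : ℝ)) ^ (20 * t) ≤ Real.exp ((n : ℝ) ^ ε)

end Pool.Agent.Work.MP_f7ef37_lc.Up
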