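import Mathlib
import Pool.Agent.Work.MP_f7ef37_lc.Up.Stmts

set_option autoImplicit false

section

open Finset

namespace Pool.Agent.Work.MP_f7ef37_lc.Up

theorem Step.mono {m n : ℕ} {A A' : Set (Line m n)} (h : A ⊆ A') {F : Line m n}
    (hF : Step A F) : Step A' F := by
  rcases hF with h1 | ⟨G, hG, h1⟩ | ⟨G, hG, G', hG', h1⟩ | ⟨G, hG, h1⟩ | ⟨G, hG, G', hG', h1⟩
  · exact Or.inl h1
  · exact Or.inr (Or.inl ⟨G, h hG, h1⟩)
  · exact Or.inr (Or.inr (Or.inl ⟨G, h hG, G', h hG', h1⟩))
  · exact Or.inr (Or.inr (Or.inr (Or.inl ⟨G, h hG, h1⟩)))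
  · exact Or.inr (Or.inr (Or.inr (Or.inr ⟨G, h hG, G', h hG', h1⟩)))

theorem Der.mono {m n t : ℕ} {A A' : Set (Line m n)} (h : A ⊆ A') {l : List (Line m n)}
    (hl : Der t A l) : Der t A' l := by
  induction hl with
  | nil => exact Der.nil
  | cons F l _ hF hs ih =>
    exact Der.cons F l ih hF (hs.mono (Set.union_subset_union_left _ h))

theorem pr_Mono : S_Mono := by
  intro m n t k k' A A' B B' hA hB hk ⟨l, h1, h2, h3⟩
  exact ⟨l, h1.mono hA, fun F hF => (h2 F (hB hF)).imp (fun h => hA h) id, h3.trans hk⟩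

theorem Der.append {m n t : ℕ} {A B : Set (Line m n)} {l₁ l₂ : List (Line m n)}
    (h1 : Der t A l₁) (hB : ∀ F ∈ B, F ∈ A ∨ F ∈ l₁) (h2 : Der t (A ∪ B) l₂) :
    Der t A (l₂ ++ l₁) := by
  induction h2 with
  | nil => exact h1
  | cons F l _ hF hs ih =>
    refine Der.cons F (l ++ l₁) ih hF (hs.mono ?_)
    intro G hG
    rcases hG with (hG | hG) | hG
    · exact Or.inl hG
    · rcases hB G hG with h | h
      · exact Or.inl h
      · exact Or.inr (List.mem_append_right _ h)
    · exact Or.inr (List.mem_append_left _ hG)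

theorem pr_Trans : S_Trans := by
  intro m n t k k' A B C ⟨l₁, h1, h2, h3⟩ ⟨l₂, g1, g2, g3⟩
  refine ⟨l₂ ++ l₁, h1.append h2 g1, ?_, ?_⟩
  · rintro F (hF | hF)
    · exact (h2 F hF).imp id (List.mem_append_right _)
    · rcases g2 F hF with (h | h) | h
      · exact Or.inl h
      · exact (h2 F h).imp id (List.mem_append_right _)
      · exact Or.inr (List.mem_append_left _ h)
  · rw [List.length_append]
    omega

theorem pr_One : S_One := by
  intro m n t A F hF hs
  refine ⟨[F], Der.cons F [] Der.nil hF (hs.mono Set.subset_union_left), ?_, le_refl _⟩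
  intro G hG
  exact Or.inr (by simpa using hG)

theorem pr_Cut : S_Cut := by
  intro m n t A K N H T hK hH hKA hNA hT hn hNH
  refine pr_One m n t A _ ?_ ?_
  · intro S hS
    rcases Finset.mem_union.1 hS with h | h
    · exact hK S (Finset.mem_of_mem_erase h)
    · exact hH S h
  · refine Or.inr (Or.inr (Or.inr (Or.inr ⟨K, hKA, N, hNA, T, hT, hn, ?_⟩)))
    refine Finset.union_subset_union (Finset.Subset.refl _) ?_
    intro S hS
    rw [Finset.mem_sdiff] at hS
    rcases Finset.mem_union.1 (hNH hS.1) with h | h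
    · exact h
    · exact absurd h hS.2

theorem pr_NegsOk : S_NegsOk := by
  intro m n t T ht S hS
  obtain ⟨l, _, rfl⟩ := Finset.mem_image.1 hS
  simp [ht]

end Pool.Agent.Work.MP_f7ef37_lc.Up

end

section

open Finset

namespace Pool.Agent.Work.MP_f7ef37_lc.Up

theorem conf_ok_single {m n t : ℕ} (ht : 1 ≤ t) (l : Lit m n) :
    1 ≤ ({l} : Term m n).card ∧ ({l} : Term m n).card ≤ t := by
  rw [Finset.card_singleton]
  exact ⟨le_refl _, ht⟩

theorem conf_negs {m n : ℕ} (p : Fin m) (y : Fin n) :
    negs ({(p, y, true)} : Term m n) = {{(p, y, false)}} := by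
  unfold negs
  rw [Finset.image_singleton]
  rfl

theorem pr_Conf : S_Conf := by
  intro m n t K H T p p' y ht hK hH hT hpp hlit hpH
  obtain ⟨T', hT'⟩ : ∃ T' : Term m n, T' = {(p', y, true)} := ⟨_, rfl⟩
  obtain ⟨F₁, hF₁⟩ : ∃ F₁ : Line m n, F₁ = insert T' (K.erase T) := ⟨_, rfl⟩
  obtain ⟨F₂, hF₂⟩ : ∃ F₂ : Line m n, F₂ = {{(p, y, false)}, {(p', y, false)}} := ⟨_, rfl⟩
  have ok1 : Ok t F₁ := by
    intro S hS
    rw [hF₁] at hS
    rcases Finset.mem_insert.mp hS with h | h
    · rw [h, hT']
      exact conf_ok_single ht _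
    · exact hK S (Finset.mem_of_mem_erase h)
  have ok2 : Ok t F₂ := by
    intro S hS
    rw [hF₂] at hS
    rcases Finset.mem_insert.mp hS with h | h
    · rw [h]
      exact conf_ok_single ht _
    · rw [Finset.mem_singleton.mp h]
      exact conf_ok_single ht _
  have ok3 : Ok t (K.erase T ∪ H) := by
    intro S hS
    rcases Finset.mem_union.mp hS with h | h
    · exact hK S (Finset.mem_of_mem_erase h)
    · exact hH S h
  refine ⟨[K.erase T ∪ H, F₂, F₁], ?_, ?_, by simp⟩
  · refine Der.cons _ _ (Der.cons _ _ (Der.cons _ _ Der.nil ok1 ?_) ok2 ?_) ok3 ?_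
    · refine Or.inr (Or.inr (Or.inr (Or.inl ⟨K, Or.inl rfl, T, hT, (p', y, true), hlit, ?_⟩)))
      rw [hF₁, hT']
    · exact Or.inl (Or.inr (Or.inl ⟨p, p', y, hpp, hF₂⟩))
    · refine Or.inr (Or.inr (Or.inr (Or.inr ⟨F₁, Or.inr ?_, F₂, Or.inr ?_, T', ?_, ?_, ?_⟩)))
      · exact List.mem_cons_of_mem _ List.mem_cons_self
      · exact List.mem_cons_self
      · rw [hF₁]
        exact Finset.mem_insert_self _ _
      · rw [hT', conf_negs, hF₂]
        intro S hS
        rw [Finset.mem_singleton] at hS
        rw [hS]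
        exact Finset.mem_insert_of_mem (Finset.mem_singleton_self _)
      · intro S hS
        rcases Finset.mem_union.mp hS with h | h
        · rw [hF₁] at h
          obtain ⟨h1, h2⟩ := Finset.mem_erase.mp h
          rcases Finset.mem_insert.mp h2 with h3 | h3
          · exact absurd h3 h1
          · exact Finset.mem_union_left _ h3
        · obtain ⟨h1, h2⟩ := Finset.mem_sdiff.mp h
          rw [hF₂] at h1
          rcases Finset.mem_insert.mp h1 with h3 | h3
          · rw [h3]
            exact Finset.mem_union_right _ hpH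
          · exfalso
            apply h2
            rw [hT', conf_negs]
            exact h3
  · intro F hF
    rw [Set.mem_singleton_iff.mp hF]
    exact Or.inr List.mem_cons_self

end Pool.Agent.Work.MP_f7ef37_lc.Up

end

section

open Finset

namespace Pool.Agent.Work.MP_f7ef37_lc.Up

theorem pr_Ext : S_Ext := by
  intro m n t K H T P x ht hK hH hT h1 h2
  set E : Line m n := {{(P, x, true)}, {(P, x, false)}} with hE
  have hEok : Ok t E := by
    intro S hS
    rw [hE, mem_insert, mem_singleton] at hS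
    rcases hS with rfl | rfl <;> simp [ht]
  have hF : Ok t (K.erase T ∪ H) := by
    intro S hS
    rcases mem_union.mp hS with h | h
    · exact hK S (mem_of_mem_erase h)
    · exact hH S h
  refine ⟨[K.erase T ∪ H, E], ?_, ?_, le_refl _⟩
  · refine Der.cons _ _ (Der.cons _ _ Der.nil hEok (Or.inl (Or.inr (Or.inr ⟨P, x, rfl⟩)))) hF ?_
    refine Or.inr (Or.inr (Or.inl ⟨K, Or.inl rfl, E, Or.inr (by simp), T, hT, {(P, x, true)},
      by simp [hE], ?_⟩))
    intro S hS
    rcases mem_union.mp hS with h | h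
    · rcases mem_union.mp h with h' | h'
      · exact mem_union_left _ h'
      · apply mem_union_right
        rw [mem_erase, hE, mem_insert, mem_singleton] at h'
        rcases h'.2 with h3 | h3
        · exact absurd h3 h'.1
        · rw [h3]; exact h2
    · rw [mem_singleton] at h
      rw [h]; exact mem_union_right _ h1
  · intro F hF'
    right
    rw [Set.mem_singleton_iff.mp hF']
    exact List.mem_cons_self

end Pool.Agent.Work.MP_f7ef37_lc.Up

end

section

open Finset

namespace Pool.Agent.Work.MP_f7ef37_lc.Up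

lemma Conv_mono {m n : ℕ} {A B : Set (Line m n)} (h : A ⊆ B) {F : Line m n} (hF : Step A F) :
    Step B F := by
  rcases hF with hF | ⟨G, hG, h1⟩ | ⟨G, hG, G', hG', h1⟩ | ⟨G, hG, h1⟩ | ⟨G, hG, G', hG', h1⟩
  · exact Or.inl hF
  · exact Or.inr (Or.inl ⟨G, h hG, h1⟩)
  · exact Or.inr (Or.inr (Or.inl ⟨G, h hG, G', h hG', h1⟩))
  · exact Or.inr (Or.inr (Or.inr (Or.inl ⟨G, h hG, h1⟩)))
  · exact Or.inr (Or.inr (Or.inr (Or.inr ⟨G, h hG, G', h hG', h1⟩)))

lemma Conv_tail {m n t : ℕ} {A : Set (Line m n)} (l₁ l₂ : List (Line m n))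
    (h : Der t A (l₁ ++ l₂)) : Der t A l₂ := by
  induction l₁ with
  | nil => simpa using h
  | cons F l ih =>
    rw [List.cons_append] at h
    cases h with
    | cons _ _ hl _ _ => exact ih hl

lemma Conv_idx {m n t : ℕ} (l : List (Line m n)) (h : Der t (∅ : Set (Line m n)) l) :
    ∀ (s : ℕ) (G : Line m n), l.reverse[s]? = some G →
      Ok t G ∧ Step {H | ∃ r, r < s ∧ l.reverse[r]? = some H} G := by
  induction h with
  | nil => intro s G hs; simp at hs
  | cons F l hl hF hstep ih =>
    intro s G hs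
    rw [List.reverse_cons] at hs
    have hlen : l.reverse.length = l.length := List.length_reverse
    have hleft : ∀ r, r < l.length → ∀ K, l.reverse[r]? = some K →
        (F :: l).reverse[r]? = some K := by
      intro r hr K hK
      rw [List.reverse_cons, List.getElem?_append_left (by omega)]
      exact hK
    rcases lt_trichotomy s l.length with h1 | h1 | h1
    · rw [List.getElem?_append_left (by omega)] at hs
      obtain ⟨h2, h3⟩ := ih s G hs
      refine ⟨h2, Conv_mono ?_ h3⟩
      rintro K ⟨r, hr, hK⟩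
      exact ⟨r, hr, hleft r (by omega) K hK⟩
    · rw [List.getElem?_append_right (by omega)] at hs
      have h2 : s - l.reverse.length = 0 := by omega
      rw [h2] at hs
      simp only [List.getElem?_cons_zero, Option.some.injEq] at hs
      subst hs
      refine ⟨hF, Conv_mono ?_ hstep⟩
      rintro K (hK | hK)
      · exact absurd hK (Set.notMem_empty K)
      · have hK' : K ∈ l.reverse := List.mem_reverse.2 hK
        obtain ⟨r, hr, hrK⟩ := List.mem_iff_getElem.1 hK'
        refine ⟨r, by omega, hleft r (by omega) K ?_⟩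
        rw [List.getElem?_eq_getElem hr, hrK]
    · exfalso
      have h2 : (l.reverse ++ [F])[s]? = none := by
        apply List.getElem?_eq_none
        simp
        omega
      rw [h2] at hs
      exact absurd hs (by simp)

theorem pr_Conv : S_Conv := by
  intro m n t k h
  obtain ⟨l, hl, hB, hk⟩ := h
  have h0 : (∅ : Line m n) ∈ l := by
    rcases hB ∅ (Set.mem_singleton _) with h | h
    · exact absurd h (Set.notMem_empty _)
    · exact h
  obtain ⟨l₁, l₂, rfl⟩ := List.append_of_mem h0
  have hd := Conv_tail _ _ hl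
  have hidx := Conv_idx _ hd
  have hlen : (∅ :: l₂ : List (Line m n)).reverse.length = l₂.length + 1 := by simp
  have hget : ∀ s : Fin (l₂.length + 1), (∅ :: l₂ : List (Line m n)).reverse[(s : ℕ)]? =
      some ((∅ :: l₂ : List (Line m n)).reverse[(s : ℕ)]'(by rw [hlen]; exact s.2)) := fun s =>
    List.getElem?_eq_getElem _
  refine ⟨l₂.length, ?_, fun s => (∅ :: l₂ : List (Line m n)).reverse[(s : ℕ)]'(by
    rw [hlen]; exact s.2), ?_, ?_, ?_⟩
  · simp only [List.length_append, List.length_cons] at hk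
    omega
  · intro s
    exact (hidx s _ (hget s)).1
  · simp
  · intro s
    refine Conv_mono ?_ (hidx s _ (hget s)).2
    rintro K ⟨r, hr, hK⟩
    have hr' : r < l₂.length + 1 := lt_trans hr s.2
    refine ⟨⟨r, hr'⟩, hr, ?_⟩
    have := hget ⟨r, hr'⟩
    rw [hK] at this
    exact (Option.some.inj this).symm

end Pool.Agent.Work.MP_f7ef37_lc.Up

end

section

open Finset

namespace Pool.Agent.Work.MP_f7ef37_lc.Up

theorem pr_Fam (h1 : S_Mono) (h2 : S_Trans) : S_Fam := by
  classical
  intro ι m n t k A X F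
  induction X using Finset.induction_on with
  | empty =>
    intro _
    refine ⟨[], Der.nil, ?_, by simp⟩
    rintro G ⟨x, hx, _⟩
    exact absurd hx (Finset.notMem_empty x)
  | insert a s ha ih =>
    intro h
    have hs : DS t A {G | ∃ x ∈ s, G = F x} (s.card * k) :=
      ih (fun x hx => h x (Finset.mem_insert_of_mem hx))
    have hF : DS t (A ∪ {G | ∃ x ∈ s, G = F x}) {F a} k :=
      h1 m n t k k A (A ∪ {G | ∃ x ∈ s, G = F x}) {F a} {F a} Set.subset_union_left
        (le_refl _) (le_refl _) (h a (Finset.mem_insert_self a s))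
    have h3 := h2 m n t (s.card * k) k A {G | ∃ x ∈ s, G = F x} {F a} hs hF
    refine h1 m n t (s.card * k + k) _ A A _ _ (le_refl _) ?_ ?_ h3
    · rintro G ⟨x, hx, rfl⟩
      rcases Finset.mem_insert.1 hx with rfl | hx
      · exact Or.inr rfl
      · exact Or.inl ⟨x, hx, rfl⟩
    · rw [Finset.card_insert_of_notMem ha]
      exact le_of_eq (by ring)

end Pool.Agent.Work.MP_f7ef37_lc.Up

end

section

open Finset

namespace Pool.Agent.Work.MP_f7ef37_lc.Up

theorem Repl_ok {m n t : ℕ} {G B H : Line m n} (hG : Ok t G) (hH : Ok t H) :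
    Ok t ((G \ B) ∪ H) := by
  intro T hT
  rcases Finset.mem_union.1 hT with h | h
  · exact hG T (Finset.mem_sdiff.1 h).1
  · exact hH T h

theorem pr_Repl (h1 : S_Mono) (h2 : S_Trans) (h3 : S_One) : S_Repl := by
  intro m n t k A G B H hGA hG hH
  induction B using Finset.induction_on with
  | empty =>
    intro _
    have hF : Ok t ((G \ ∅) ∪ H) := Repl_ok hG hH
    have hS : Step A ((G \ ∅) ∪ H) := by
      right; left
      refine ⟨G, hGA, ?_⟩
      rw [Finset.sdiff_empty]
      exact Finset.subset_union_left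
    exact h1 m n t 1 _ A A _ _ subset_rfl subset_rfl (by omega) (h3 m n t A _ hF hS)
  | insert T B' hT ih =>
    intro hyp
    have ih' := ih (fun T' hT' => hyp T' (Finset.mem_insert_of_mem hT'))
    rw [Finset.card_insert_of_notMem hT]
    by_cases hTK : T ∈ (G \ B') ∪ H
    · have h4 := hyp T (Finset.mem_insert_self _ _) ((G \ B') ∪ H) (Repl_ok hG hH) hTK
      have h5 := h2 m n t _ _ A _ _ ih' h4
      have h6 : ((G \ B') ∪ H).erase T ∪ H = (G \ insert T B') ∪ H := by
        ext x
        simp only [Finset.mem_union, Finset.mem_erase, Finset.mem_sdiff, Finset.mem_insert]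
        tauto
      rw [h6] at h5
      refine h1 m n t _ _ A A _ _ subset_rfl Set.subset_union_right ?_ h5
      nlinarith
    · have h6 : (G \ insert T B') ∪ H = (G \ B') ∪ H := by
        ext x
        simp only [Finset.mem_union, Finset.mem_sdiff, Finset.mem_insert] at hTK ⊢
        constructor
        · rintro (h | h)
          · exact Or.inl ⟨h.1, fun h' => h.2 (Or.inr h')⟩
          · exact Or.inr h
        · rintro (h | h)
          · left
            refine ⟨h.1, ?_⟩
            rintro (h' | h')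
            · subst h'
              exact hTK (Or.inl h)
            · exact h.2 h'
          · exact Or.inr h
      rw [h6]
      refine h1 m n t _ _ A A _ _ subset_rfl subset_rfl ?_ ih'
      nlinarith

end Pool.Agent.Work.MP_f7ef37_lc.Up

end

section

open Finset

namespace Pool.Agent.Work.MP_f7ef37_lc.Up

theorem Sz_surj {α : Type} [DecidableEq α] (t : ℕ) (T : Finset α) (hT : T.card ≤ t) :
    ∃ g : Fin t → Option α, Finset.eraseNone (Finset.univ.image g) = T := by
  refine ⟨fun i => T.toList[(i : ℕ)]?, ?_⟩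
  ext x
  rw [Finset.mem_eraseNone, Finset.mem_image]
  constructor
  · rintro ⟨i, _, hi⟩
    exact Finset.mem_toList.1 (List.mem_of_getElem? hi)
  · intro hx
    obtain ⟨i, hi⟩ := List.getElem?_of_mem (Finset.mem_toList.2 hx)
    have hlt : i < T.card := by
      have := (List.getElem?_eq_some_iff.1 hi).1
      rwa [Finset.length_toList] at this
    exact ⟨⟨i, hlt.trans_le hT⟩, Finset.mem_univ _, hi⟩

theorem Sz_card {m n t : ℕ} (F : Line m n) (hF : Ok t F) : F.card ≤ U t m n := by
  classical
  have hsub : F ⊆ (Finset.univ : Finset (Fin t → Option (Lit m n))).image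
      (fun g => Finset.eraseNone (Finset.univ.image g)) := by
    intro T hT
    obtain ⟨g, hg⟩ := Sz_surj t T (hF T hT).2
    exact Finset.mem_image.2 ⟨g, Finset.mem_univ _, hg⟩
  refine (Finset.card_le_card hsub).trans (Finset.card_image_le.trans ?_)
  rw [Finset.card_univ, Fintype.card_fun, Fintype.card_option, Fintype.card_prod,
    Fintype.card_prod, Fintype.card_fin, Fintype.card_fin, Fintype.card_fin, Fintype.card_bool]
  unfold U
  apply le_of_eq
  congr 2
  ring

theorem pr_Sz : S_Sz := by
  intro m n t F hF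
  refine ⟨Sz_card F hF, ?_⟩
  calc ∑ T ∈ F, T.card ≤ ∑ _T ∈ F, t := Finset.sum_le_sum fun T hT => (hF T hT).2
    _ = F.card * t := by rw [Finset.sum_const, smul_eq_mul]
    _ ≤ U t m n * t := Nat.mul_le_mul_right t (Sz_card F hF)
    _ = t * U t m n := mul_comm _ _

end Pool.Agent.Work.MP_f7ef37_lc.Up

end

section

open Finset

namespace Pool.Agent.Work.MP_f7ef37_lc.Up

theorem CnOk_term {m n L : ℕ} (D : Data m n L) (c : Fin n) (p : ℕ → Fin m) {k t : ℕ}
    (h1 : 1 ≤ k) (h2 : k ≤ t) : 1 ≤ (term D c p k).card ∧ (term D c p k).card ≤ t := by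
  constructor
  · refine Finset.card_pos.2 ⟨(p 0, node D c p 0, true), ?_⟩
    exact Finset.mem_image.2 ⟨0, Finset.mem_range.2 (by omega), rfl⟩
  · have h := Finset.card_image_le (s := Finset.range k)
      (f := fun i => (p i, node D c p i, true))
    rw [Finset.card_range] at h
    exact h.trans h2

open Classical in
theorem CnOk_Cn {m n L : ℕ} (D : Data m n L) (w : ℕ → Fin L) (x : Fin n) {k t : ℕ}
    (h1 : 1 ≤ k) (h2 : k ≤ t) : Ok t (Cn D k w x) := by
  intro T hT
  obtain ⟨c, -, p, rfl, -⟩ := (Finset.mem_filter.1 hT).2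
  exact CnOk_term D c p h1 h2

open Classical in
theorem CnOk_Pg {m n L : ℕ} (D : Data m n L) (c : Fin n) (z : ℕ) {k t : ℕ}
    (h1 : 1 ≤ k) (h2 : k ≤ t) : Ok t (Pg D k c z) := by
  intro T hT
  obtain ⟨p, rfl, -⟩ := (Finset.mem_filter.1 hT).2
  exact CnOk_term D c p h1 h2

theorem pr_CnOk : S_CnOk := by
  intro m n L t k z D w x c h1 h2
  refine ⟨CnOk_Cn D w x h1 h2, CnOk_Pg D c z h1 h2, ?_, ?_⟩
  · intro Γ X hΓ T hT
    rcases Finset.mem_union.1 hT with hT | hT
    · exact hΓ T hT
    · obtain ⟨c', -, hc'⟩ := Finset.mem_biUnion.1 hT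
      exact CnOk_Pg D c' z h1 h2 T hc'
  · intro Γ k' w' X j hk' hΓ T hT
    rcases Finset.mem_union.1 hT with hT | hT
    · exact hΓ T hT
    · obtain ⟨l, -, hl⟩ := Finset.mem_biUnion.1 hT
      exact CnOk_Cn D _ _ (by omega) hk' T hl

end Pool.Agent.Work.MP_f7ef37_lc.Up

end

section

open Finset

namespace Pool.Agent.Work.MP_f7ef37_lc.Up

lemma ExtT_node {m n L : ℕ} (D : Data m n L) (c : Fin n) (p : ℕ → Fin m) (k : ℕ) (P : Fin m) :
    ∀ i, i ≤ k → node D c (Function.update p k P) i = node D c p i := by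
  intro i
  induction i with
  | zero => intro _; rfl
  | succ i _ =>
    intro hi
    show D.dec (Function.update p k P i) (D.dig c i) = D.dec (p i) (D.dig c i)
    rw [Function.update_of_ne (by omega)]

theorem pr_ExtT : S_ExtT := by
  classical
  intro m n L k D w x T X hT
  unfold Cn at hT ⊢
  obtain ⟨_, c, hc, p, rfl, hx⟩ := mem_filter.1 hT
  refine ⟨D.dig c k, ?_⟩
  refine mem_filter.2 ⟨mem_univ _, c, ?_, Function.update p k (D.enc X), ?_, ?_⟩
  · intro i hi
    rcases Nat.lt_succ_iff_lt_or_eq.1 hi with h | h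
    · rw [Function.update_of_ne (by omega)]
      exact hc i h
    · rw [h, Function.update_self]
  · unfold term
    rw [range_add_one, image_insert, Function.update_self, ExtT_node D c p k _ k le_rfl, hx,
      insert_eq, union_comm]
    congr 1
    apply image_congr
    intro i hi
    have hi' : i < k := mem_range.1 hi
    simp only
    rw [Function.update_of_ne (by omega), ExtT_node D c p k _ i hi'.le]
  · show D.dec (Function.update p k (D.enc X) k) (D.dig c k) = X (D.dig c k)
    rw [Function.update_self, D.dec_enc]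

end Pool.Agent.Work.MP_f7ef37_lc.Up

end

section

namespace Pool.Agent.Work.MP_f7ef37_lc.Up

/-- if the answers agree below `i`, then the nodes agree up to `i` -/
theorem ConfT_node {m n L : ℕ} (D : Data m n L) (c : Fin n) (p p' : ℕ → Fin m) (k : ℕ)
    (h : ∀ i < k, p i = p' i) : node D c p k = node D c p' k := by
  cases k with
  | zero => rfl
  | succ i => simp only [node, h i (Nat.lt_succ_self i)]

theorem pr_ConfT : S_ConfT := by
  classical
  intro m n L k D c p p' hne
  have hex : ∃ i, i < k ∧ p i ≠ p' i := by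
    by_contra hcon
    push Not at hcon
    exact hne (ConfT_node D c p p' k hcon)
  obtain ⟨hik, hip⟩ := Nat.find_spec hex
  have hmin : ∀ j < Nat.find hex, p j = p' j := by
    intro j hj
    by_contra hcon
    exact Nat.find_min hex hj ⟨lt_trans hj hik, hcon⟩
  have hnode := ConfT_node D c p p' (Nat.find hex) hmin
  refine ⟨p (Nat.find hex), p' (Nat.find hex), node D c p (Nat.find hex), hip, ?_, ?_⟩
  · unfold term
    rw [Finset.mem_image]
    exact ⟨Nat.find hex, Finset.mem_range.2 hik, by rw [hnode]⟩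
  · unfold negs
    rw [Finset.mem_image]
    refine ⟨(p (Nat.find hex), node D c p (Nat.find hex), true), ?_, rfl⟩
    unfold term
    rw [Finset.mem_image]
    exact ⟨Nat.find hex, Finset.mem_range.2 hik, rfl⟩

end Pool.Agent.Work.MP_f7ef37_lc.Up

end

section

open Finset

namespace Pool.Agent.Work.MP_f7ef37_lc.Up

theorem Top_term {m n L : ℕ} (D : Data m n L) (c : Fin n) (p : ℕ → Fin m) :
    term D c p 1 = {(p 0, c, true)} := by
  simp [term, node]

theorem pr_Top : S_Top := by
  intro m n L t D w X ht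
  set Z := Ctx D ∅ 0 w X L with hZ
  set P := D.enc X with hP
  have hokZ : Ok t Z := by
    intro T hT
    rw [hZ] at hT
    simp only [Ctx, Finset.empty_union, Finset.mem_biUnion, Cn, Finset.mem_filter,
      Finset.mem_univ, true_and] at hT
    obtain ⟨l, _, c, _, p, hTp, _⟩ := hT
    rw [hTp]
    simp only [Nat.zero_add]
    rw [Top_term]
    simp [ht]
  have hokP : Ok t (Finset.univ.image
      (fun j : Fin n => ({(P, j, true)} : Finset (Fin m × Fin n × Bool)))) := by
    intro T hT
    simp only [Finset.mem_image, Finset.mem_univ, true_and] at hT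
    obtain ⟨j, rfl⟩ := hT
    simp [ht]
  have hsub : (Finset.univ.image
      (fun j : Fin n => ({(P, j, true)} : Finset (Fin m × Fin n × Bool)))) ⊆ Z := by
    intro T hT
    simp only [Finset.mem_image, Finset.mem_univ, true_and] at hT
    obtain ⟨c, rfl⟩ := hT
    rw [hZ]
    simp only [Ctx, Finset.empty_union, Finset.mem_biUnion, Cn, Finset.mem_filter,
      Finset.mem_univ, true_and]
    refine ⟨D.dig c 0, (D.dig c 0).isLt, c, ?_, fun _ => P, ?_, ?_⟩
    · intro i hi
      have : i = 0 := by omega
      subst this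
      simp
    · simp only [Nat.zero_add]
      rw [Top_term]
    · simp only [node]
      rw [hP, D.dec_enc]
  refine ⟨[Z, Finset.univ.image
      (fun j : Fin n => ({(P, j, true)} : Finset (Fin m × Fin n × Bool)))], ?_, ?_, ?_⟩
  · refine Der.cons _ _ (Der.cons _ _ Der.nil hokP (Or.inl (Or.inl ⟨P, rfl⟩))) hokZ ?_
    refine Or.inr (Or.inl ⟨_, ?_, hsub⟩)
    right
    simp
  · intro F hF
    right
    simp only [Set.mem_singleton_iff] at hF
    simp [hF]
  · simp

end Pool.Agent.Work.MP_f7ef37_lc.Up

end
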