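import Mathlib
import Pool.Agent.Work.MP_f7ef37_lc.Up.Stmts

set_option autoImplicit false

section

open Finset

namespace Pool.Agent.Work.MP_f7ef37_lc.Up

lemma Mer_union_ok {m n t : ℕ} {F G : Line m n} (hF : Ok t F) (hG : Ok t G) : Ok t (F ∪ G) := by
  intro T hT
  rcases mem_union.1 hT with h | h
  exacts [hF T h, hG T h]

lemma Mer_single_ok {m n t : ℕ} (ht : 1 ≤ t) (l : Fin m × Fin n × Bool) :
    Ok t ({{l}} : Line m n) := by
  intro T hT
  rw [mem_singleton] at hT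
  subst hT
  rw [card_singleton]
  exact ⟨le_rfl, ht⟩

lemma Mer_pig_ok {m n t : ℕ} (ht : 1 ≤ t) (P : Fin m) : Ok t (pig (n := n) P) := by
  intro T hT
  obtain ⟨x, _, rfl⟩ := mem_image.1 hT
  rw [card_singleton]
  exact ⟨le_rfl, ht⟩

lemma Mer_pig_card {m n : ℕ} (P : Fin m) : (pig (n := n) P).card ≤ n := by
  refine card_image_le.trans ?_
  rw [card_univ, Fintype.card_fin]

lemma Mer_negs {m n : ℕ} (P : Fin m) (x : Fin n) :
    negs ({(P, x, true)} : Term m n) = {{(P, x, false)}} := by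
  unfold negs
  rw [image_singleton]
  rfl

theorem pr_Mer (h1 : S_Mono) (h2 : S_Trans) (h3 : S_One) (h4 : S_Fam) (h5 : S_Repl) (h6 : S_Ext)
    (h7 : S_Cut) (h8 : S_Sz) (h9 : S_CnOk) (h10 : S_ExtT) : S_Mer := by
  intro m n L t k D w Γ X hn hk hkt hΓ
  have ht : 1 ≤ t := by omega
  set A : Set (Line m n) := {F | ∃ x : Fin n, F = Γ ∪ Cn D k w x} with hA
  set P : Fin m := D.enc X with hP
  set Z : Line m n := Ctx D Γ k w X L with hZ
  have hZok : Ok t Z :=
    (h9 m n L t k 0 D w ⟨0, by omega⟩ ⟨0, by omega⟩ hk (by omega)).2.2.2 Γ k w X L hkt hΓ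
  have hCn : ∀ x, Ok t (Cn D k w x) := fun x =>
    (h9 m n L t k 0 D w x x hk (by omega)).1
  have hΓZ : Γ ⊆ Z := subset_union_left
  have hFok : ∀ x : Fin n, Ok t (Z ∪ {{(P, x, false)}}) := fun x =>
    Mer_union_ok hZok (Mer_single_ok ht _)
  -- step 1
  have s1 : ∀ x ∈ (Finset.univ : Finset (Fin n)),
      DS t A {Z ∪ {{(P, x, false)}}} (U t m n * 2 + 1) := by
    intro x _
    have hr := h5 m n t 2 A (Γ ∪ Cn D k w x) (Cn D k w x) (Z ∪ {{(P, x, false)}}) ⟨x, rfl⟩
      (Mer_union_ok hΓ (hCn x)) (hFok x) (by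
        intro T hT K hK hTK
        have he := h6 m n t K (Z ∪ {{(P, x, false)}}) T P x ht hK (hFok x) hTK
          (by
            obtain ⟨l, hl⟩ := h10 m n L k D w x T X hT
            refine mem_union_left _ (mem_union_right _ ?_)
            rw [mem_biUnion]
            exact ⟨l, mem_filter.2 ⟨mem_univ _, l.2⟩, hl⟩)
          (mem_union_right _ (mem_singleton_self _))
        exact h1 m n t 2 2 {K} (A ∪ {K}) _ _ Set.subset_union_right subset_rfl le_rfl he)
    have heq : ((Γ ∪ Cn D k w x) \ Cn D k w x) ∪ (Z ∪ {{(P, x, false)}})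
        = Z ∪ {{(P, x, false)}} := by
      apply union_eq_right.2
      intro T hT
      rw [mem_sdiff, mem_union] at hT
      rcases hT with ⟨h | h, h'⟩
      · exact mem_union_left _ (hΓZ h)
      · exact absurd h h'
    rw [heq] at hr
    refine h1 m n t _ _ A A _ _ subset_rfl subset_rfl ?_ hr
    have := (h8 m n t (Cn D k w x) (hCn x)).1
    omega
  have s1' := h4 (Fin n) m n t (U t m n * 2 + 1) A Finset.univ
    (fun x => Z ∪ {{(P, x, false)}}) s1
  -- step 2
  have s2 : DS t (A ∪ {G | ∃ x ∈ (Finset.univ : Finset (Fin n)), G = Z ∪ {{(P, x, false)}}})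
      {pig P} 1 :=
    h3 m n t _ _ (Mer_pig_ok ht P) (Or.inl (Or.inl ⟨P, rfl⟩))
  have s12 := h2 m n t _ _ _ _ _ s1' s2
  -- step 3
  have s3 := h5 m n t 1
    (A ∪ ({G | ∃ x ∈ (Finset.univ : Finset (Fin n)), G = Z ∪ {{(P, x, false)}}} ∪ {pig P}))
    (pig P) (pig P) Z (Or.inr (Or.inr rfl)) (Mer_pig_ok ht P) hZok (by
      intro T hT K hK hTK
      obtain ⟨x, _, rfl⟩ := mem_image.1 hT
      refine h7 m n t _ K (Z ∪ {{(P, x, false)}}) Z _ hK hZok (Or.inr rfl)
        (Or.inl (Or.inr (Or.inl ⟨x, mem_univ _, rfl⟩))) hTK ?_ ?_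
      · rw [Mer_negs]
        exact subset_union_right
      · rw [Mer_negs])
  have heq : (pig (n := n) P \ pig P) ∪ Z = Z := by
    rw [Finset.sdiff_self, empty_union]
  rw [heq] at s3
  have s123 := h2 m n t _ _ _ _ _ s12 s3
  refine h1 m n t _ _ A A _ _ subset_rfl Set.subset_union_right ?_ s123
  have hc := Mer_pig_card (n := n) P
  have hU : 1 ≤ U t m n := Nat.one_le_pow _ _ (Nat.succ_pos _)
  rw [card_univ, Fintype.card_fin]
  have : n * (U t m n * 2 + 1) + 1 + ((pig (n := n) P).card * 1 + 1)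
      ≤ n * (U t m n * 2 + 1) + 1 + (n + 1) := by omega
  refine this.trans ?_
  nlinarith

end Pool.Agent.Work.MP_f7ef37_lc.Up

end

section

open Finset

namespace Pool.Agent.Work.MP_f7ef37_lc.Up

theorem StB_ctx_succ {m n L : ℕ} (D : Data m n L) (Γ : Line m n) (k : ℕ) (w : ℕ → Fin L)
    (X : Fin L → Fin n) (j : ℕ) (hj : j < L) (x : Fin n) :
    Ctx D Γ k w X j ∪ Cn D (k + 1) (Function.update w k ⟨j, hj⟩) x =
      Ctx D Γ k w (Function.update X ⟨j, hj⟩ x) (j + 1) := by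
  ext T
  unfold Ctx
  simp only [mem_union, mem_biUnion, mem_filter, mem_univ, true_and]
  constructor
  · rintro ((h | ⟨l, hl, hT⟩) | h)
    · exact Or.inl h
    · refine Or.inr ⟨l, by omega, ?_⟩
      rw [Function.update_of_ne (fun e => by rw [e] at hl; exact absurd hl (lt_irrefl j))]
      exact hT
    · refine Or.inr ⟨⟨j, hj⟩, Nat.lt_succ_self j, ?_⟩
      rw [Function.update_self]
      exact h
  · rintro (h | ⟨l, hl, hT⟩)
    · exact Or.inl (Or.inl h)
    · by_cases hlj : (l : ℕ) = j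
      · right
        have e : l = ⟨j, hj⟩ := Fin.ext hlj
        rw [e, Function.update_self] at hT
        exact hT
      · refine Or.inl (Or.inr ⟨l, by omega, ?_⟩)
        rw [Function.update_of_ne (fun e => hlj (by rw [e]))] at hT
        exact hT

theorem StB_ctx_zero {m n L : ℕ} (D : Data m n L) (Γ : Line m n) (k : ℕ) (w : ℕ → Fin L)
    (X : Fin L → Fin n) : Ctx D Γ k w X 0 = Γ := by
  unfold Ctx
  simp

theorem pr_StB (h1 : S_Mono) (h2 : S_Trans) (h3 : S_Fam) (h4 : S_CnOk) : S_StB := by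
  intro m n L t k N D w Γ hn hk hΓ hyp
  have claim : ∀ i ≤ L, DS t {F | ∃ X : Fin L → Fin n, F = Ctx D Γ k w X L}
      {F | ∃ X : Fin L → Fin n, F = Ctx D Γ k w X (L - i)} (i * (n ^ L * N)) := by
    intro i
    induction i with
    | zero =>
      intro _
      refine ⟨[], Der.nil, fun F hF => Or.inl hF, ?_⟩
      simp
    | succ i ih =>
      intro hi
      have ih' := ih (by omega)
      have hj : L - (i + 1) < L := by omega
      have hj1 : L - i = L - (i + 1) + 1 := by omega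
      have hfam := h3 (Fin L → Fin n) m n t N
        ({F | ∃ X : Fin L → Fin n, F = Ctx D Γ k w X L} ∪
          {F | ∃ X : Fin L → Fin n, F = Ctx D Γ k w X (L - i)}) Finset.univ
        (fun X => Ctx D Γ k w X (L - (i + 1))) (fun X _ => by
          have hok : Ok t (Ctx D Γ k w X (L - (i + 1))) :=
            (h4 m n L t (k + 1) 0 D w (X ⟨L - (i + 1), hj⟩) (X ⟨L - (i + 1), hj⟩) (by omega)
              hk).2.2.2 Γ k w X (L - (i + 1)) hk hΓ
          have hd := hyp (Ctx D Γ k w X (L - (i + 1)))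
            (Function.update w k ⟨L - (i + 1), hj⟩) hok
          refine h1 m n t N N _ _ _ _ ?_ (subset_refl _) le_rfl hd
          rintro F ⟨x, rfl⟩
          right
          refine ⟨Function.update X ⟨L - (i + 1), hj⟩ x, ?_⟩
          rw [hj1]
          exact StB_ctx_succ D Γ k w X (L - (i + 1)) hj x)
      have htr := h2 m n t _ _ _ _ _ ih' hfam
      refine h1 m n t _ _ _ _ _ _ (subset_refl _) ?_ ?_ htr
      · rintro F ⟨X, rfl⟩
        exact Or.inr ⟨X, Finset.mem_univ _, rfl⟩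
      · rw [Finset.card_univ, Fintype.card_fun, Fintype.card_fin, Fintype.card_fin, add_mul,
          one_mul]
  refine h1 m n t _ _ _ _ _ _ (subset_refl _) ?_ le_rfl (claim L le_rfl)
  rintro F hF
  rw [Set.mem_singleton_iff] at hF
  refine ⟨fun _ => ⟨0, hn⟩, ?_⟩
  rw [Nat.sub_self, StB_ctx_zero, hF]

end Pool.Agent.Work.MP_f7ef37_lc.Up

end

section

open Finset

namespace Pool.Agent.Work.MP_f7ef37_lc.Up

theorem Lf1_Pg_mono {m n L : ℕ} (D : Data m n L) (t : ℕ) (c : Fin n) (z : ℕ) :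
    Pg D t c (z + 1) ⊆ Pg D t c z := by
  classical
  intro T hT
  unfold Pg at hT ⊢
  rw [Finset.mem_filter] at hT ⊢
  obtain ⟨h1, p, h2, h3⟩ := hT
  exact ⟨h1, p, h2, by omega⟩

theorem Lf1_Ok_union {m n : ℕ} {t : ℕ} {F G : Line m n} (hF : Ok t F) (hG : Ok t G) :
    Ok t (F ∪ G) := by
  intro T hT
  rcases Finset.mem_union.1 hT with h | h
  · exact hF T h
  · exact hG T h

theorem pr_Lf1 (h1 : S_Mono) (h2 : S_Repl) (h3 : S_Conf) (h4 : S_Sz) (h5 : S_CnOk)
    (h6 : S_NegsOk) (h7 : S_ConfT) : S_Lf1 := by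
  classical
  intro m n L t z D Γ X c p ht hΓ hz
  set G : Line m n := Gz D Γ t (z + 1) (insert c X) with hG
  set B : Line m n := Pg D t c (z + 1) with hB
  set H : Line m n := Gz D Γ t z X ∪ negs (term D c p t) with hH
  have hok := fun (z' : ℕ) => h5 m n L t t z' D (fun _ => D.dig c 0) c c ht le_rfl
  have hGok : Ok t G := (hok (z + 1)).2.2.1 Γ _ hΓ
  have hBok : Ok t B := (hok (z + 1)).2.1
  have hHok : Ok t H := Lf1_Ok_union ((hok z).2.2.1 Γ _ hΓ) (h6 m n t _ ht)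
  have hmain : DS t ({G} : Set (Line m n)) {(G \ B) ∪ H} (B.card * 3 + 1) := by
    refine h2 m n t 3 {G} G B H rfl hGok hHok ?_
    intro T' hT' K hK hTK
    have hT'2 := hT'
    rw [hB] at hT'2
    unfold Pg at hT'2
    rw [Finset.mem_filter] at hT'2
    obtain ⟨_, p', hp', hz'⟩ := hT'2
    have hne : node D c p t ≠ node D c p' t := by
      intro h
      rw [← h, hz] at hz'
      omega
    obtain ⟨a, b, y, hab, hb, ha⟩ := h7 m n L t D c p p' hne
    rw [← hp'] at hb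
    have hc := h3 m n t K H T' a b y ht hK hHok hTK hab hb (Finset.mem_union_right _ ha)
    exact h1 m n t 3 3 {K} ({G} ∪ {K}) _ _ Set.subset_union_right subset_rfl le_rfl hc
  have heq : (G \ B) ∪ H = H := by
    apply Finset.union_eq_right.2
    intro T0 hT0
    rw [Finset.mem_sdiff] at hT0
    obtain ⟨hg, hb⟩ := hT0
    rw [hG] at hg
    unfold Gz at hg
    rw [hH]
    apply Finset.mem_union_left
    unfold Gz
    rcases Finset.mem_union.1 hg with h | h
    · exact Finset.mem_union_left _ h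
    · rw [Finset.mem_biUnion] at h
      obtain ⟨c', hc', hT⟩ := h
      rcases Finset.mem_insert.1 hc' with h | h
      · rw [h] at hT
        exact absurd hT hb
      · apply Finset.mem_union_right
        rw [Finset.mem_biUnion]
        exact ⟨c', h, Lf1_Pg_mono D t c' z hT⟩
  rw [heq] at hmain
  refine h1 m n t _ _ _ _ _ _ subset_rfl subset_rfl ?_ hmain
  have := (h4 m n t B hBok).1
  omega

end Pool.Agent.Work.MP_f7ef37_lc.Up

end

section

open Finset

namespace Pool.Agent.Work.MP_f7ef37_lc.Up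

theorem Lf2_num (U e : ℕ) (hU : 1 ≤ U) (he : e ≤ U) :
    e * (3 * U + 1) + (e * 1 + 1) ≤ 6 * U ^ 2 := by
  have h1 : e * (3 * U + 1) ≤ U * (3 * U + 1) := Nat.mul_le_mul_right _ he
  nlinarith

open Classical in
theorem pr_Lf2 (h1 : S_Mono) (h2 : S_Trans) (h3 : S_Fam) (h4 : S_Repl) (h5 : S_Cut) (h6 : S_Lf1)
    (h7 : S_Sz) (h8 : S_CnOk) : S_Lf2 := by
  intro m n L t D w Γ X Bk x ht hΓ hBk hX
  obtain ⟨okC, _, okG, _⟩ := h8 m n L t t (x : ℕ) D w x x ht le_rfl
  have okH : Ok t (Gz D Γ t x X) := okG Γ X hΓ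
  have okL : Ok t (Γ ∪ Cn D t w x) := by
    intro T hT
    rcases mem_union.1 hT with h | h
    · exact hΓ T h
    · exact okC T h
  obtain ⟨E, hE⟩ : ∃ E : Line m n, ∀ T, T ∈ E ↔ T ∈ Cn D t w x ∧
      ∃ c ∈ Bk \ X, ∃ p : ℕ → Fin m, T = term D c p t ∧ node D c p t = x :=
    ⟨(Cn D t w x).filter (fun T => ∃ c ∈ Bk \ X, ∃ p : ℕ → Fin m, T = term D c p t ∧
      node D c p t = x), fun T => mem_filter⟩
  have okE : Ok t E := fun T hT => okC T ((hE T).1 hT).1
  have hcard : E.card ≤ U t m n := (h7 m n t E okE).1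
  have hU : 1 ≤ U t m n := Nat.one_le_pow _ _ (Nat.succ_pos _)
  set A0 : Set (Line m n) := {Γ ∪ Cn D t w x} ∪
    {F | ∃ c ∈ Bk \ X, F = Gz D Γ t ((x : ℕ) + 1) (insert c X)} with hA0
  set H : Line m n := Gz D Γ t x X with hH
  have s1 := h3 (Term m n) m n t (3 * U t m n + 1) A0 E (fun T => H ∪ negs T) (fun T hT => by
    obtain ⟨_, c, hc, p, hTp, hnode⟩ := (hE T).1 hT
    have hd := h6 m n L t (x : ℕ) D Γ X c p ht hΓ (by rw [hnode])
    rw [← hTp] at hd
    refine h1 m n t _ _ _ _ _ _ ?_ (subset_refl _) le_rfl hd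
    rintro F hF
    rw [Set.mem_singleton_iff] at hF
    exact Or.inr ⟨c, hc, hF⟩)
  set B1 : Set (Line m n) := {G | ∃ T ∈ E, G = H ∪ negs T} with hB1
  have s2 := h4 m n t 1 (A0 ∪ B1) (Γ ∪ Cn D t w x) E H (Or.inl (Or.inl rfl)) okL okH
    (fun T hT K okK hTK => by
      refine h5 m n t _ K (H ∪ negs T) H T okK okH (Or.inr rfl) (Or.inl (Or.inr ⟨T, hT, rfl⟩)) hTK
        subset_union_right (subset_refl _))
  have s3 := h2 m n t _ _ A0 B1 _ s1 s2
  refine h1 m n t _ _ _ _ _ _ (subset_refl _) ?_ (Lf2_num _ _ hU hcard) s3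
  rintro F hF
  rw [Set.mem_singleton_iff] at hF
  right
  rw [Set.mem_singleton_iff, hF]
  refine (union_eq_right.2 ?_).symm
  intro T hT
  rw [mem_sdiff, mem_union] at hT
  obtain ⟨hT1, hT2⟩ := hT
  rw [hH]
  unfold Gz
  rcases hT1 with h | h
  · exact mem_union_left _ h
  · have h' := h
    unfold Cn at h'
    obtain ⟨_, c, hc, p, hTp, hnode⟩ := mem_filter.1 h'
    by_cases hcX : c ∈ X
    · refine mem_union_right _ (mem_biUnion.2 ⟨c, hcX, ?_⟩)
      unfold Pg
      exact mem_filter.2 ⟨mem_univ _, p, hTp, by rw [hnode]⟩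
    · exact absurd ((hE T).2 ⟨h, c, mem_sdiff.2 ⟨(hBk c).2 hc, hcX⟩, p, hTp, hnode⟩) hT2

end Pool.Agent.Work.MP_f7ef37_lc.Up

end

section

open Finset

namespace Pool.Agent.Work.MP_f7ef37_lc.Up

theorem Leaf_U_pos (t m n : ℕ) : 1 ≤ 6 * U t m n ^ 2 := by
  have h : 0 < U t m n := by
    unfold U
    positivity
  have : 0 < U t m n ^ 2 := by positivity
  omega

theorem Leaf_claim (h1 : S_Mono) (h2 : S_Trans) (h3 : S_One) (h4 : S_Fam) (h5 : S_Lf2)
    (h6 : S_CnOk) (m n L t s : ℕ) (D : Data m n L) (w : ℕ → Fin L) (Γ : Line m n)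
    (Bk : Finset (Fin n)) (ht : 1 ≤ t) (hΓ : Ok t Γ) (hBk : ∀ c, c ∈ Bk ↔ InB D t w c)
    (hs : Bk.card ≤ s) (hsn : s < n) :
    ∀ d : ℕ, d ≤ Bk.card → ∀ z : ℕ, z + d = Bk.card →
      DS t {F | ∃ x : Fin n, F = Γ ∪ Cn D t w x}
        {F | ∃ X ∈ Bk.powersetCard z, F = Gz D Γ t z X} ((d + 1) * (2 ^ s * (6 * U t m n ^ 2))) := by
  classical
  have hU := Leaf_U_pos t m n
  have hK : 1 ≤ 2 ^ s * (6 * U t m n ^ 2) := by
    have : 1 ≤ 2 ^ s := Nat.one_le_two_pow
    exact Nat.one_le_iff_ne_zero.2 (by positivity)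
  intro d
  induction d with
  | zero =>
    intro _ z hz
    have hz' : z = Bk.card := by omega
    subst hz'
    obtain ⟨x, hx⟩ : ∃ x : Fin n, (x : ℕ) = Bk.card := ⟨⟨Bk.card, by omega⟩, rfl⟩
    have hok : Ok t (Gz D Γ t Bk.card Bk) := (h6 m n L t t Bk.card D w x x ht le_rfl).2.2.1 Γ Bk hΓ
    have hstep : Step {F | ∃ x : Fin n, F = Γ ∪ Cn D t w x} (Gz D Γ t Bk.card Bk) := by
      right
      left
      refine ⟨Γ ∪ Cn D t w x, ⟨x, rfl⟩, ?_⟩
      unfold Gz
      apply Finset.union_subset_union_right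
      intro T hT
      unfold Cn at hT
      obtain ⟨_, c, hc, p, hTp, hnode⟩ := Finset.mem_filter.1 hT
      rw [Finset.mem_biUnion]
      refine ⟨c, (hBk c).2 hc, ?_⟩
      unfold Pg
      exact Finset.mem_filter.2 ⟨Finset.mem_univ _, p, hTp, by rw [hnode, hx]⟩
    have h7 := h3 m n t _ _ hok hstep
    refine h1 m n t 1 _ _ _ _ _ subset_rfl ?_ (by omega) h7
    rintro F ⟨X, hX, rfl⟩
    rw [Finset.powersetCard_self, Finset.mem_singleton] at hX
    rw [hX]
    rfl
  | succ d ih =>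
    intro hd z hz
    have h7 := ih (by omega) (z + 1) (by omega)
    obtain ⟨x, hx⟩ : ∃ x : Fin n, (x : ℕ) = z := ⟨⟨z, by omega⟩, rfl⟩
    have h8 : ∀ X ∈ Bk.powersetCard z,
        DS t ({F | ∃ x : Fin n, F = Γ ∪ Cn D t w x} ∪
          {F | ∃ X ∈ Bk.powersetCard (z + 1), F = Gz D Γ t (z + 1) X})
          {Gz D Γ t z X} (6 * U t m n ^ 2) := by
      intro X hX
      rw [Finset.mem_powersetCard] at hX
      have h9 := h5 m n L t D w Γ X Bk x ht hΓ hBk hX.1
      rw [hx] at h9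
      refine h1 m n t _ _ _ _ _ _ ?_ subset_rfl le_rfl h9
      intro F hF
      rcases hF with hF | hF
      · left
        exact ⟨x, hF⟩
      · right
        obtain ⟨c, hc, hFc⟩ := hF
        rw [Finset.mem_sdiff] at hc
        refine ⟨insert c X, ?_, hFc⟩
        rw [Finset.mem_powersetCard]
        refine ⟨Finset.insert_subset hc.1 hX.1, ?_⟩
        rw [Finset.card_insert_of_notMem hc.2, hX.2]
    have h9 := h4 (Finset (Fin n)) m n t _ _ (Bk.powersetCard z) (fun X => Gz D Γ t z X) h8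
    have h10 := h2 m n t _ _ _ _ _ h7 h9
    refine h1 m n t _ _ _ _ _ _ subset_rfl Set.subset_union_right ?_ h10
    have h11 : (Bk.powersetCard z).card ≤ 2 ^ s := by
      rw [Finset.card_powersetCard]
      calc Bk.card.choose z ≤ 2 ^ Bk.card := Nat.choose_le_two_pow _ _
        _ ≤ 2 ^ s := Nat.pow_le_pow_right (by norm_num) hs
    have h12 := Nat.mul_le_mul_right (6 * U t m n ^ 2) h11
    calc (d + 1) * (2 ^ s * (6 * U t m n ^ 2)) + (Bk.powersetCard z).card * (6 * U t m n ^ 2)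
        ≤ (d + 1) * (2 ^ s * (6 * U t m n ^ 2)) + 2 ^ s * (6 * U t m n ^ 2) :=
          Nat.add_le_add_left h12 _
      _ = (d + 1 + 1) * (2 ^ s * (6 * U t m n ^ 2)) := by ring

theorem pr_Leaf (h1 : S_Mono) (h2 : S_Trans) (h3 : S_One) (h4 : S_Fam) (h5 : S_Lf2)
    (h6 : S_CnOk) (_h7 : S_Sz) : S_Leaf := by
  intro m n L t s D w Γ Bk ht hΓ hBk hs hsn
  have h8 := Leaf_claim h1 h2 h3 h4 h5 h6 m n L t s D w Γ Bk ht hΓ hBk hs hsn Bk.card le_rfl 0
    (by omega)
  refine h1 m n t _ _ _ _ _ _ subset_rfl ?_ ?_ h8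
  · intro F hF
    rw [Set.mem_singleton_iff] at hF
    refine ⟨∅, ?_, ?_⟩
    · simp
    · rw [hF]
      simp [Gz]
  · exact Nat.mul_le_mul_right _ (by omega)

end Pool.Agent.Work.MP_f7ef37_lc.Up

end

section

open Finset

namespace Pool.Agent.Work.MP_f7ef37_lc.Up

theorem pr_Rec (h1 : S_Mono) (h2 : S_Trans) (h3 : S_Fam) (h4 : S_Mer) (h5 : S_StB) (h6 : S_Leaf) :
    S_Rec := by
  intro m n L t s j D hn hs hj hBk
  induction j with
  | zero =>
    intro Γ w hΓ
    obtain ⟨Bk, hB, hcard⟩ := hBk w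
    exact h6 m n L t s D w Γ Bk hj hΓ hB hcard hs
  | succ j ih =>
    intro Γ w hΓ
    have ih' := ih (by omega)
    have hk : t - j = (t - (j + 1)) + 1 := by omega
    rw [hk] at ih'
    have e1 := h3 (Fin L → Fin n) m n t (5 * n * U t m n) {F | ∃ x : Fin n, F = Γ ∪ Cn D (t - (j + 1)) w x}
      Finset.univ (fun X => Ctx D Γ (t - (j + 1)) w X L)
      (fun X _ => h4 m n L t (t - (j + 1)) D w Γ X hn (by omega) (by omega) hΓ)
    have e2 := h5 m n L t (t - (j + 1)) (NN t m n L s j) D w Γ (by omega) (by omega) hΓ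
      (fun Γ' w' hΓ' => ih' Γ' w' hΓ')
    have e3 := h2 m n t _ _ _ _ {Γ} e1
      (h1 m n t _ _ _ _ _ _ (by
        intro F hF
        obtain ⟨X, rfl⟩ := hF
        exact Or.inr ⟨X, Finset.mem_univ X, rfl⟩) (le_refl _) (le_refl _) e2)
    refine h1 m n t _ _ _ _ _ _ (le_refl _) (Set.subset_union_right) ?_ e3
    rw [Finset.card_univ, Fintype.card_fun, Fintype.card_fin, Fintype.card_fin]
    exact le_refl _

end Pool.Agent.Work.MP_f7ef37_lc.Up

end

section

open Finset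

namespace Pool.Agent.Work.MP_f7ef37_lc.Up

theorem pr_Tot (hMono : S_Mono) (hTrans : S_Trans) (hFam : S_Fam) (hTop : S_Top) (hStB : S_StB)
    (hRec : S_Rec) : S_Tot := by
  intro m n L t s D hn hs ht hB
  let c0 : Fin n := ⟨0, by omega⟩
  let w : ℕ → Fin L := fun i => D.dig c0 i
  have h1 : DS t (∅ : Set (Line m n))
      {G | ∃ X ∈ (Finset.univ : Finset (Fin L → Fin n)), G = Ctx D ∅ 0 w X L}
      ((Finset.univ : Finset (Fin L → Fin n)).card * 2) :=
    hFam (Fin L → Fin n) m n t _ _ Finset.univ (fun X => Ctx D ∅ 0 w X L)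
      (fun X _ => hTop m n L t D w X ht)
  have hok : Ok t (∅ : Line m n) := fun T hT => absurd hT (Finset.notMem_empty T)
  have h2 := hStB m n L t 0 (NN t m n L s (t - 1)) D w ∅ (by omega) (by omega) hok
    (fun Γ' w' hΓ' => by
      have h := hRec m n L t s (t - 1) D hn hs (by omega) hB Γ' w' hΓ'
      rwa [show t - (t - 1) = 0 + 1 by omega] at h)
  have h3 := hTrans m n t _ _ _ _ {∅} h1
    (hMono m n t _ _ _ (∅ ∪
      {G | ∃ X ∈ (Finset.univ : Finset (Fin L → Fin n)), G = Ctx D ∅ 0 w X L})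
      _ {∅} (by
        rintro F ⟨X, rfl⟩
        exact Or.inr ⟨X, Finset.mem_univ _, rfl⟩) (subset_refl _) (le_refl _) h2)
  refine hMono m n t _ _ _ _ _ _ (subset_refl _) (Set.subset_union_right) ?_ h3
  rw [Finset.card_univ, Fintype.card_fun, Fintype.card_fin, Fintype.card_fin]
  omega

end Pool.Agent.Work.MP_f7ef37_lc.Up

end
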