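import Mathlib
import Pool.Agent.Work.MP_f7ef37_lc.Up.Stmts

set_option autoImplicit false

section

open Finset

namespace Pool.Agent.Work.MP_f7ef37_lc.Up

theorem Dat_mod (L c c' : ℕ) : ∀ t : ℕ, (∀ i < t, (c / L ^ i) % L = (c' / L ^ i) % L) →
    c % L ^ t = c' % L ^ t := by
  intro t
  induction t with
  | zero => intro _; simp [Nat.mod_one]
  | succ t ih =>
    intro h
    rw [Nat.mod_pow_succ, Nat.mod_pow_succ, ih fun i hi => h i (by omega), h t (by omega)]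

theorem pr_Dat : S_Dat := by
  classical
  intro m n L t s hn hL hm hs
  let e : (Fin L → Fin n) ≃ Fin (n ^ L) := finFunctionFinEquiv
  let D : Data m n L :=
    { dec := fun p l => if h : (p : ℕ) < n ^ L then e.symm ⟨p, h⟩ l else ⟨0, hn⟩
      enc := fun X => Fin.castLE hm (e X)
      dig := fun c i => ⟨((c : ℕ) / L ^ i) % L, Nat.mod_lt _ hL⟩
      dec_enc := by
        intro X
        funext l
        have h : ((Fin.castLE hm (e X) : Fin m) : ℕ) < n ^ L := (e X).2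
        rw [dif_pos h]
        have h2 : (⟨((Fin.castLE hm (e X) : Fin m) : ℕ), h⟩ : Fin (n ^ L)) = e X := by
          ext
          rfl
        rw [h2, Equiv.symm_apply_apply] }
  refine ⟨D, fun w => ⟨Finset.univ.filter (fun c => InB D t w c), by simp, ?_⟩⟩
  rw [← Finset.card_range s]
  apply Finset.card_le_card_of_injOn (fun c : Fin n => (c : ℕ) / L ^ t)
  · intro c _
    rw [Finset.coe_range, Set.mem_Iio]
    apply Nat.div_lt_of_lt_mul
    exact lt_of_lt_of_le c.2 hs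
  · intro c hc c' hc' heq
    rw [Finset.coe_filter] at hc hc'
    have h1 : InB D t w c := hc.2
    have h2 : InB D t w c' := hc'.2
    have h3 : (c : ℕ) % L ^ t = (c' : ℕ) % L ^ t := by
      apply Dat_mod
      intro i hi
      have h4 : D.dig c i = D.dig c' i := (h1 i hi).trans (h2 i hi).symm
      exact congrArg Fin.val h4
    have h5 : (c : ℕ) / L ^ t = (c' : ℕ) / L ^ t := heq
    ext
    rw [← Nat.div_add_mod (c : ℕ) (L ^ t), h3, h5, Nat.div_add_mod]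

end Pool.Agent.Work.MP_f7ef37_lc.Up

end

section

namespace Pool.Agent.Work.MP_f7ef37_lc.Up

theorem pr_Sel : S_Sel := by
  intro n L t ht hn h
  have hlog1 : Nat.log 2 n < n := Nat.log_lt_self 2 (by omega)
  have hlogpow : 2 ^ Nat.log 2 n ≤ n := Nat.pow_log_le_self 2 (by omega)
  have hL : 2 ≤ L := by
    by_contra hL
    have hL' : L = 0 ∨ L = 1 := by omega
    rcases hL' with h0 | h1
    · subst h0
      simp at h
      omega
    · subst h1
      simp at h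
      omega
  refine ⟨hL, ?_⟩
  by_cases hc : L * Nat.log 2 n ≤ n - 1
  · refine ⟨L * Nat.log 2 n, by omega, ?_, ?_⟩
    · calc 2 ^ (L * Nat.log 2 n) = (2 ^ Nat.log 2 n) ^ L := by rw [← pow_mul, mul_comm]
        _ ≤ n ^ L := Nat.pow_le_pow_left hlogpow L
    · calc n ≤ L ^ (t + 1) * Nat.log 2 n := h
        _ = L ^ t * (L * Nat.log 2 n) := by rw [pow_succ, mul_assoc]
  · push Not at hc
    refine ⟨n - 1, by omega, ?_, ?_⟩
    · calc 2 ^ (n - 1) ≤ 2 ^ (L * Nat.log 2 n) := Nat.pow_le_pow_right (by norm_num) (by omega)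
        _ = (2 ^ Nat.log 2 n) ^ L := by rw [← pow_mul, mul_comm]
        _ ≤ n ^ L := Nat.pow_le_pow_left hlogpow L
    · have h2 : 2 ≤ L ^ t := by
        calc 2 ≤ L := hL
          _ = L ^ 1 := (pow_one L).symm
          _ ≤ L ^ t := Nat.pow_le_pow_right (by omega) ht
      calc n ≤ 2 * (n - 1) := by omega
        _ ≤ L ^ t * (n - 1) := Nat.mul_le_mul_right _ h2

end Pool.Agent.Work.MP_f7ef37_lc.Up

end

section

open Finset

namespace Pool.Agent.Work.MP_f7ef37_lc.Up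

theorem Num_V (t m n : ℕ) (h4 : 4 ≤ m) (hn : n ≤ m) : U t m n ≤ m ^ (3 * t) := by
  unfold U
  rw [pow_mul]
  apply Nat.pow_le_pow_left
  have h1 : 2 * m * n ≤ 2 * m * m := Nat.mul_le_mul_left _ hn
  nlinarith [Nat.mul_le_mul h4 h4, Nat.mul_le_mul (Nat.mul_le_mul h4 h4) h4,
    mul_nonneg (Nat.zero_le m) (Nat.zero_le m), Nat.mul_le_mul_right (m * m) h4]

theorem Num_NN (t m n L s V : ℕ) (hV : U t m n = V) (hV1 : 1 ≤ V) (hm : 1 ≤ m) (hn : n ≤ m)
    (hL : L ≤ m) (hnL : n ^ L ≤ m) (hs : s + 1 ≤ m) (hs2 : 2 ^ s ≤ m) (j : ℕ) :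
    NN t m n L s j ≤ 6 * (j + 1) * (m ^ (2 * j + 2) * V ^ 2) := by
  induction j with
  | zero =>
    show (s + 1) * (2 ^ s * (6 * U t m n ^ 2)) ≤ _
    rw [hV]
    calc (s + 1) * (2 ^ s * (6 * V ^ 2)) ≤ m * (m * (6 * V ^ 2)) :=
          Nat.mul_le_mul hs (Nat.mul_le_mul_right _ hs2)
      _ = 6 * (0 + 1) * (m ^ (2 * 0 + 2) * V ^ 2) := by ring
  | succ j ih =>
    show n ^ L * (5 * n * U t m n) + L * (n ^ L * NN t m n L s j) ≤ _
    rw [hV]
    have h1 : n ^ L * (5 * n * V) ≤ m * (5 * m * V) :=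
      Nat.mul_le_mul hnL (Nat.mul_le_mul_right _ (Nat.mul_le_mul_left _ hn))
    have h2 : L * (n ^ L * NN t m n L s j) ≤
        m * (m * (6 * (j + 1) * (m ^ (2 * j + 2) * V ^ 2))) :=
      Nat.mul_le_mul hL (Nat.mul_le_mul hnL ih)
    have h3 : m ^ 2 * V ≤ m ^ (2 * j + 4) * V ^ 2 := by
      apply Nat.mul_le_mul
      · exact Nat.pow_le_pow_right hm (by omega)
      · nlinarith
    calc n ^ L * (5 * n * V) + L * (n ^ L * NN t m n L s j)
        ≤ m * (5 * m * V) + m * (m * (6 * (j + 1) * (m ^ (2 * j + 2) * V ^ 2))) :=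
          Nat.add_le_add h1 h2
      _ = 5 * (m ^ 2 * V) + 6 * (j + 1) * (m ^ (2 * j + 4) * V ^ 2) := by ring
      _ ≤ 6 * (m ^ (2 * j + 4) * V ^ 2) + 6 * (j + 1) * (m ^ (2 * j + 4) * V ^ 2) := by
          apply Nat.add_le_add_right
          exact Nat.mul_le_mul (by norm_num) h3
      _ = 6 * (j + 1 + 1) * (m ^ (2 * (j + 1) + 2) * V ^ 2) := by ring

theorem pr_Num : S_Num := by
  intro m n L t s ht hn hL hnL hs2 hsn
  have h4 : 4 ≤ m := by
    calc 4 = 2 ^ 2 := by norm_num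
      _ ≤ n ^ 2 := Nat.pow_le_pow_left hn 2
      _ ≤ n ^ L := Nat.pow_le_pow_right (by omega) hL
      _ ≤ m := hnL
  have hnm : n ≤ m := le_trans (Nat.le_self_pow (by omega) n) hnL
  have hLm : L ≤ m := le_trans (Nat.lt_pow_self (by omega : 1 < n)).le hnL
  obtain ⟨V, hV⟩ : ∃ V, U t m n = V := ⟨_, rfl⟩
  have hVm : V ≤ m ^ (3 * t) := hV ▸ Num_V t m n h4 hnm
  have hV1 : 1 ≤ V := by
    rw [← hV]; unfold U
    exact Nat.one_le_pow _ _ (by omega)
  have hNN := Num_NN t m n L s V hV hV1 (by omega) hnm hLm hnL (by omega) hs2 (t - 1)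
  have e1 : t - 1 + 1 = t := by omega
  have e2 : 2 * (t - 1) + 2 = 2 * t := by omega
  rw [e1, e2] at hNN
  rw [hV]
  have hmt : m ≤ t * (m ^ (2 * t + 2) * V ^ 2) := by
    have a1 : m ≤ m ^ (2 * t + 2) := Nat.le_self_pow (by omega) m
    have a2 : 1 ≤ V ^ 2 := Nat.one_le_pow _ _ hV1
    calc m = 1 * (m * 1) := by ring
      _ ≤ t * (m ^ (2 * t + 2) * V ^ 2) :=
        Nat.mul_le_mul ht (Nat.mul_le_mul a1 a2)
  have hA : 2 * n ^ L + L * (n ^ L * NN t m n L s (t - 1)) ≤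
      8 * t * (m ^ (2 * t + 2) * V ^ 2) := by
    calc 2 * n ^ L + L * (n ^ L * NN t m n L s (t - 1))
        ≤ 2 * m + m * (m * (6 * t * (m ^ (2 * t) * V ^ 2))) :=
          Nat.add_le_add (Nat.mul_le_mul_left _ hnL)
            (Nat.mul_le_mul hLm (Nat.mul_le_mul hnL hNN))
      _ ≤ 2 * (t * (m ^ (2 * t + 2) * V ^ 2)) + m * (m * (6 * t * (m ^ (2 * t) * V ^ 2))) :=
          Nat.add_le_add_right (Nat.mul_le_mul_left _ hmt) _
      _ = 8 * t * (m ^ (2 * t + 2) * V ^ 2) := by ring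
  have hV3 : V ^ 3 ≤ m ^ (9 * t) := by
    calc V ^ 3 ≤ (m ^ (3 * t)) ^ 3 := Nat.pow_le_pow_left hVm 3
      _ = m ^ (9 * t) := by rw [← pow_mul]; congr 1; ring
  have ht2 : 8 * t ^ 2 ≤ m ^ (t + 2) := by
    have b1 : t ≤ 2 ^ t := Nat.lt_two_pow_self.le
    calc 8 * t ^ 2 ≤ 16 * (2 ^ t) ^ 2 := Nat.mul_le_mul (by norm_num) (Nat.pow_le_pow_left b1 2)
      _ = 4 ^ (t + 2) := by
          rw [← pow_mul, mul_comm t 2, pow_mul, pow_add]; ring
      _ ≤ m ^ (t + 2) := Nat.pow_le_pow_left h4 _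
  calc (2 * n ^ L + L * (n ^ L * NN t m n L s (t - 1))) * (t * V)
      ≤ (8 * t * (m ^ (2 * t + 2) * V ^ 2)) * (t * V) := Nat.mul_le_mul_right _ hA
    _ = (8 * t ^ 2) * m ^ (2 * t + 2) * V ^ 3 := by ring
    _ ≤ m ^ (t + 2) * m ^ (2 * t + 2) * m ^ (9 * t) :=
        Nat.mul_le_mul (Nat.mul_le_mul_right _ ht2) hV3
    _ = m ^ (12 * t + 4) := by rw [← pow_add, ← pow_add]; congr 1; ring
    _ ≤ m ^ (20 * t) := Nat.pow_le_pow_right (by omega) (by omega)

end Pool.Agent.Work.MP_f7ef37_lc.Up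

end

section

open Finset

namespace Pool.Agent.Work.MP_f7ef37_lc.Up

theorem Asy_two_le (n : ℕ) (δ : ℝ) (hδ : 0 < δ) (hn : 2 ≤ n) : 2 ≤ ⌈(n : ℝ) ^ δ⌉₊ := by
  have h1 : (1 : ℝ) < (n : ℝ) ^ δ := by
    apply Real.one_lt_rpow _ hδ
    have : (2 : ℝ) ≤ n := by exact_mod_cast hn
    linarith
  have h2 : 1 < ⌈(n : ℝ) ^ δ⌉₊ := by
    rw [Nat.lt_ceil]
    exact_mod_cast h1
  omega

theorem Asy_pow (n t : ℕ) (hn : 2 ≤ n) :
    n ≤ ⌈(n : ℝ) ^ (1 / ((t : ℝ) + 1))⌉₊ ^ (t + 1) * Nat.log 2 n := by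
  have h0 : (0 : ℝ) ≤ n := Nat.cast_nonneg n
  have h1 : (n : ℝ) = ((n : ℝ) ^ (1 / ((t : ℝ) + 1))) ^ (t + 1) := by
    rw [← Real.rpow_natCast, ← Real.rpow_mul h0]
    push_cast
    rw [one_div, inv_mul_cancel₀ (by positivity), Real.rpow_one]
  have h2 : (n : ℝ) ≤ ((⌈(n : ℝ) ^ (1 / ((t : ℝ) + 1))⌉₊ ^ (t + 1) : ℕ) : ℝ) := by
    push_cast
    nth_rewrite 1 [h1]
    exact pow_le_pow_left₀ (Real.rpow_nonneg h0 _) (Nat.le_ceil _) _
  have h3 : n ≤ ⌈(n : ℝ) ^ (1 / ((t : ℝ) + 1))⌉₊ ^ (t + 1) := by exact_mod_cast h2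
  have h4 : 1 ≤ Nat.log 2 n := Nat.log_pos (by norm_num) hn
  calc n ≤ _ := h3
    _ = ⌈(n : ℝ) ^ (1 / ((t : ℝ) + 1))⌉₊ ^ (t + 1) * 1 := (mul_one _).symm
    _ ≤ _ := Nat.mul_le_mul_left _ h4

theorem pr_Asy : S_Asy := by
  intro ε hε
  obtain ⟨t, ht⟩ := exists_nat_gt (2 / ε + 1)
  have ht0 : (1 : ℝ) < t := by
    have : 0 < 2 / ε := by positivity
    linarith
  have ht1 : 1 ≤ t := by
    have : (1 : ℝ) < t := ht0
    have h2 : 1 < t := by exact_mod_cast this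
    omega
  set δ : ℝ := 1 / ((t : ℝ) + 1) with hδ
  have hδ0 : 0 < δ := by rw [hδ]; positivity
  have hδε : δ ≤ ε / 2 := by
    rw [hδ, div_le_div_iff₀ (by positivity) (by norm_num)]
    have h1 : 2 / ε < t := by linarith
    rw [div_lt_iff₀ hε] at h1
    nlinarith
  refine ⟨t, ht1, fun n => if n < 2 then n + 1 else n ^ ⌈(n : ℝ) ^ δ⌉₊,
    fun n => ⌈(n : ℝ) ^ δ⌉₊, ?_, ?_⟩
  · intro n
    by_cases hn : n < 2
    · simp only [if_pos hn]; omega
    · simp only [if_neg hn]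
      have h2 := Asy_two_le n δ hδ0 (by omega)
      calc n = n ^ 1 := (pow_one n).symm
        _ < n ^ ⌈(n : ℝ) ^ δ⌉₊ := Nat.pow_lt_pow_right (by omega) (by omega)
  · have hlo := (isLittleO_log_rpow_atTop (r := ε / 2) (by positivity)).bound
      (show (0 : ℝ) < 1 / (40 * t) by positivity)
    have hlo2 := (tendsto_natCast_atTop_atTop (R := ℝ)).eventually hlo
    filter_upwards [hlo2, Filter.eventually_ge_atTop 2] with n h1 hn
    have hn1 : (1 : ℝ) ≤ n := by exact_mod_cast (by omega : 1 ≤ n)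
    have hn0 : (0 : ℝ) < n := by linarith
    have hnot : ¬ n < 2 := by omega
    refine ⟨hn, ?_, ?_, ?_⟩
    · simp only [if_neg hnot]; exact le_rfl
    · exact Asy_pow n t hn
    · simp only [if_neg hnot]
      push_cast
      rw [← pow_mul, ← Real.exp_log (pow_pos hn0 _), Real.log_pow, Real.exp_le_exp]
      push_cast
      have hL : ((⌈(n : ℝ) ^ δ⌉₊ : ℕ) : ℝ) ≤ 2 * (n : ℝ) ^ (ε / 2) := by
        have h2 : ((⌈(n : ℝ) ^ δ⌉₊ : ℕ) : ℝ) < (n : ℝ) ^ δ + 1 :=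
          Nat.ceil_lt_add_one (Real.rpow_nonneg hn0.le _)
        have h3 : (n : ℝ) ^ δ ≤ (n : ℝ) ^ (ε / 2) := Real.rpow_le_rpow_of_exponent_le hn1 hδε
        have h4 : 1 ≤ (n : ℝ) ^ (ε / 2) := Real.one_le_rpow hn1 (by positivity)
        linarith
      have hlog0 : 0 ≤ Real.log n := Real.log_nonneg hn1
      rw [Real.norm_of_nonneg hlog0, Real.norm_of_nonneg (Real.rpow_nonneg hn0.le _)] at h1
      have hsq : (n : ℝ) ^ ε = (n : ℝ) ^ (ε / 2) * (n : ℝ) ^ (ε / 2) := by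
        rw [← Real.rpow_add hn0]; congr 1; ring
      have hr0 : 0 ≤ (n : ℝ) ^ (ε / 2) := Real.rpow_nonneg hn0.le _
      calc ((⌈(n : ℝ) ^ δ⌉₊ : ℕ) : ℝ) * (20 * (t : ℝ)) * Real.log n
          ≤ (2 * (n : ℝ) ^ (ε / 2)) * (20 * (t : ℝ)) * (1 / (40 * t) * (n : ℝ) ^ (ε / 2)) := by
            gcongr
        _ = (n : ℝ) ^ ε := by
            rw [hsq]; field_simp; ring

end Pool.Agent.Work.MP_f7ef37_lc.Up

end

section

open Finset

namespace Pool.Agent.Work.MP_f7ef37_lc.Up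

theorem asy2_log {n : ℕ} (hn : 2 ≤ n) : Real.log n / Real.log 2 ≤ 2 * (Nat.log 2 n : ℝ) := by
  have h1 : n < 2 ^ (Nat.log 2 n + 1) := Nat.lt_pow_succ_log_self (by norm_num) n
  have h2 : 1 ≤ Nat.log 2 n := Nat.log_pos (by norm_num) hn
  have hl2 : 0 < Real.log 2 := Real.log_pos (by norm_num)
  have hn0 : (0 : ℝ) < n := by positivity
  have h3 : Real.log n ≤ ((Nat.log 2 n : ℝ) + 1) * Real.log 2 := by
    have h4 : (n : ℝ) ≤ 2 ^ (Nat.log 2 n + 1) := by exact_mod_cast h1.le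
    have h5 := Real.log_le_log hn0 h4
    rw [Real.log_pow] at h5
    push_cast at h5
    exact h5
  rw [div_le_iff₀ hl2]
  have h6 : (1 : ℝ) ≤ Nat.log 2 n := by exact_mod_cast h2
  nlinarith

theorem asy2 (t n : ℕ) (ht : 1 ≤ t) (hn : 2 ≤ n) : ∃ L : ℕ, 2 ≤ L ∧
    n ≤ L ^ (t + 1) * Nat.log 2 n ∧
    (((n ^ L : ℕ) : ℝ)) ^ (20 * t) ≤
      Real.exp (80 * t * (n : ℝ) ^ (1 / ((t : ℝ) + 1)) * Real.log n ^ ((t : ℝ) / (t + 1))) := by
  have hl2 : 0 < Real.log 2 := Real.log_pos (by norm_num)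
  have hl2' : Real.log 2 < 0.6931471808 := Real.log_two_lt_d9
  have hl2'' : 0.6931471803 < Real.log 2 := Real.log_two_gt_d9
  have hn2 : (2 : ℝ) ≤ n := by exact_mod_cast hn
  have hn0 : (0 : ℝ) < n := by linarith
  have hln : Real.log 2 ≤ Real.log n := Real.log_le_log (by norm_num) hn2
  have hln0 : 0 < Real.log n := lt_of_lt_of_le hl2 hln
  have ht0 : (1 : ℝ) ≤ t := by exact_mod_cast ht
  have he0 : 0 < 1 / ((t : ℝ) + 1) := by positivity
  have he1 : 1 / ((t : ℝ) + 1) ≤ 1 := by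
    rw [div_le_one (by linarith)]
    linarith
  set e : ℝ := 1 / ((t : ℝ) + 1) with he
  -- the real number `x`
  obtain ⟨x, hx⟩ : ∃ x : ℝ, x = 2 * n * Real.log 2 / Real.log n := ⟨_, rfl⟩
  have hx1 : 1 < x := by
    rw [hx, lt_div_iff₀ hln0]
    have h1 : Real.log n ≤ n - 1 := Real.log_le_sub_one_of_pos hn0
    nlinarith
  have hx0 : 0 < x := by linarith
  have hxe : 1 < x ^ e := Real.one_lt_rpow hx1 he0
  refine ⟨⌈x ^ e⌉₊, ?_, ?_, ?_⟩
  · have h1 : ((1 : ℕ) : ℝ) < (⌈x ^ e⌉₊ : ℝ) := by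
      push_cast
      exact lt_of_lt_of_le hxe (Nat.le_ceil _)
    have h2 : 1 < ⌈x ^ e⌉₊ := by exact_mod_cast h1
    omega
  · have h1 : x ≤ (⌈x ^ e⌉₊ : ℝ) ^ (t + 1) := by
      have h2 : (x ^ e) ^ (t + 1) = x := by
        rw [← Real.rpow_natCast, ← Real.rpow_mul hx0.le]
        have h3 : e * ((t + 1 : ℕ) : ℝ) = 1 := by
          rw [he]
          push_cast
          field_simp
        rw [h3, Real.rpow_one]
      calc x = (x ^ e) ^ (t + 1) := h2.symm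
        _ ≤ (⌈x ^ e⌉₊ : ℝ) ^ (t + 1) :=
          pow_le_pow_left₀ (by positivity) (Nat.le_ceil _) _
    have h4 := asy2_log hn
    have h5 : (n : ℝ) ≤ (⌈x ^ e⌉₊ : ℝ) ^ (t + 1) * (Nat.log 2 n : ℝ) := by
      have h6 : (n : ℝ) = x * (Real.log n / Real.log 2 / 2) := by
        rw [hx]
        field_simp
      calc (n : ℝ) = x * (Real.log n / Real.log 2 / 2) := h6
        _ ≤ x * (Nat.log 2 n : ℝ) := by
          apply mul_le_mul_of_nonneg_left _ hx0.le
          linarith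
        _ ≤ _ := mul_le_mul_of_nonneg_right h1 (by positivity)
    exact_mod_cast h5
  · have h1 : (⌈x ^ e⌉₊ : ℝ) ≤ 2 * x ^ e := by
      have := (Nat.ceil_lt_add_one (show (0 : ℝ) ≤ x ^ e by positivity)).le
      linarith
    have h2 : (((n ^ ⌈x ^ e⌉₊ : ℕ) : ℝ)) ^ (20 * t) =
        Real.exp (20 * t * (⌈x ^ e⌉₊ : ℝ) * Real.log n) := by
      push_cast
      rw [← pow_mul, ← Real.exp_log (pow_pos hn0 _), Real.log_pow]
      congr 1
      push_cast
      ring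
    rw [h2]
    apply Real.exp_le_exp.2
    -- `x ^ e ≤ 2 n ^ e (log n) ^ (-e)`
    have h3 : x ^ e * Real.log n ≤ 2 * ((n : ℝ) ^ e * Real.log n ^ ((t : ℝ) / (t + 1))) := by
      have h4 : x = (2 * Real.log 2) * ((n : ℝ) / Real.log n) := by
        rw [hx]
        ring
      have h5 : x ^ e = (2 * Real.log 2) ^ e * ((n : ℝ) ^ e / Real.log n ^ e) := by
        rw [h4, Real.mul_rpow (by positivity) (by positivity),
          Real.div_rpow hn0.le hln0.le]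
      have h6 : (2 * Real.log 2) ^ e ≤ 2 := by
        calc (2 * Real.log 2) ^ e ≤ (2 * Real.log 2) ^ (1 : ℝ) :=
              Real.rpow_le_rpow_of_exponent_le (by linarith) he1
          _ ≤ 2 := by
              rw [Real.rpow_one]
              linarith
      have h7 : Real.log n ^ ((t : ℝ) / (t + 1)) * Real.log n ^ e = Real.log n := by
        rw [← Real.rpow_add hln0]
        have : (t : ℝ) / (t + 1) + e = 1 := by
          rw [he]
          field_simp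
        rw [this, Real.rpow_one]
      have h8 : (0 : ℝ) < Real.log n ^ e := by positivity
      calc x ^ e * Real.log n
          = (2 * Real.log 2) ^ e * ((n : ℝ) ^ e / Real.log n ^ e) *
            (Real.log n ^ ((t : ℝ) / (t + 1)) * Real.log n ^ e) := by rw [h7, h5]
        _ = (2 * Real.log 2) ^ e * ((n : ℝ) ^ e * Real.log n ^ ((t : ℝ) / (t + 1))) := by
            field_simp
        _ ≤ 2 * ((n : ℝ) ^ e * Real.log n ^ ((t : ℝ) / (t + 1))) :=
            mul_le_mul_of_nonneg_right h6 (by positivity)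
    calc 20 * (t : ℝ) * (⌈x ^ e⌉₊ : ℝ) * Real.log n
        ≤ 20 * t * (2 * x ^ e) * Real.log n := by gcongr
      _ = 40 * t * (x ^ e * Real.log n) := by ring
      _ ≤ 40 * t * (2 * ((n : ℝ) ^ e * Real.log n ^ ((t : ℝ) / (t + 1)))) :=
          mul_le_mul_of_nonneg_left h3 (by positivity)
      _ = _ := by ring

end Pool.Agent.Work.MP_f7ef37_lc.Up

end
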