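import Mathlib

/-!
# Res(t) refutations of the pigeonhole principle: definitions

`m` pigeons, `n` holes. A literal is `(i, j, b)`: the variable `x_ij` if `b = true`, its negation
if `b = false`. A term (a conjunction) is a finite set of literals, a line (a disjunction of
conjunctions) is a finite set of terms. `Step A F` says that `F` is an axiom of `PHP` or follows
by one rule of Res(t) from lines of `A`; these are the disjuncts of the frozen statement, without
the onto and the functional axioms.
-/

set_option autoImplicit false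

open Finset

namespace Pool.Agent.Work.MP_f7ef37_lc.Up

/-- Literals. -/
abbrev Lit (m n : ℕ) := Fin m × Fin n × Bool

/-- Conjunctions of literals. -/
abbrev Term (m n : ℕ) := Finset (Fin m × Fin n × Bool)

/-- Disjunctions of conjunctions. -/
abbrev Line (m n : ℕ) := Finset (Finset (Fin m × Fin n × Bool))

/-- All terms have between 1 and `t` literals. -/
def Ok {m n : ℕ} (t : ℕ) (F : Line m n) : Prop := ∀ T ∈ F, 1 ≤ T.card ∧ T.card ≤ t

/-- The negation of a term: the disjunction of the negated literals. -/
def negs {m n : ℕ} (T : Term m n) : Line m n :=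
  T.image (fun l => ({(l.1, l.2.1, !l.2.2)} : Finset (Fin m × Fin n × Bool)))

/-- The pigeon axiom of `i`. -/
def pig {m n : ℕ} (i : Fin m) : Line m n :=
  Finset.univ.image (fun j : Fin n => ({(i, j, true)} : Finset (Fin m × Fin n × Bool)))

/-- Axioms: pigeon axioms, collision axioms, excluded middle. -/
def AxPHP {m n : ℕ} (F : Line m n) : Prop :=
  (∃ i : Fin m, F = Finset.univ.image
      (fun j : Fin n => ({(i, j, true)} : Finset (Fin m × Fin n × Bool)))) ∨
  (∃ i i' : Fin m, ∃ j : Fin n, i ≠ i' ∧ F = {{(i, j, false)}, {(i', j, false)}}) ∨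
  (∃ i : Fin m, ∃ j : Fin n, F = {{(i, j, true)}, {(i, j, false)}})

/-- `F` is an axiom or follows by one rule from lines in `A` (weakening is built into every
rule, as in the frozen statement). -/
def Step {m n : ℕ} (A : Set (Line m n)) (F : Line m n) : Prop :=
  AxPHP F ∨ (∃ G ∈ A, G ⊆ F) ∨
  (∃ G ∈ A, ∃ G' ∈ A, ∃ T ∈ G, ∃ T' ∈ G', G.erase T ∪ G'.erase T' ∪ {T ∪ T'} ⊆ F) ∨
  (∃ G ∈ A, ∃ T ∈ G, ∃ l ∈ T, insert {l} (G.erase T) ⊆ F) ∨
  (∃ G ∈ A, ∃ G' ∈ A, ∃ T ∈ G, negs T ⊆ G' ∧ G.erase T ∪ (G' \ negs T) ⊆ F)

/-- Derivations from `A` (the newest line is the head of the list). -/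
inductive Der {m n : ℕ} (t : ℕ) (A : Set (Line m n)) : List (Line m n) → Prop
  | nil : Der t A []
  | cons (F : Line m n) (l : List (Line m n)) (hl : Der t A l) (hF : Ok t F)
      (hs : Step (A ∪ {G | G ∈ l}) F) : Der t A (F :: l)

/-- From the lines in `A` one can derive all the lines in `B` with at most `k` new lines. -/
def DS {m n : ℕ} (t : ℕ) (A B : Set (Line m n)) (k : ℕ) : Prop :=
  ∃ l : List (Line m n), Der t A l ∧ (∀ F ∈ B, F ∈ A ∨ F ∈ l) ∧ l.length ≤ k

/-- A bound for the number of terms with at most `t` literals. -/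
def U (t m n : ℕ) : ℕ := (2 * m * n + 1) ^ t

/-! ## Paths -/

/-- The data: `dec p l` is the `l`-th component of the pigeon `p` (a pigeon is a sequence of `L`
holes), `dig c i` is the `i`-th digit of the hole `c`. -/
structure Data (m n L : ℕ) where
  /-- components of a pigeon -/
  dec : Fin m → Fin L → Fin n
  /-- the pigeon with given components -/
  enc : (Fin L → Fin n) → Fin m
  /-- digits of a hole -/
  dig : Fin n → ℕ → Fin L
  /-- `dec` is a left inverse of `enc` -/
  dec_enc : ∀ X, dec (enc X) = X

variable {m n L : ℕ} (D : Data m n L)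

/-- The hole reached from `c` after `i` reads, if the answers are `p 0, p 1, ...`: the first
read asks for the pigeon in `c` (answer `p 0`) and goes to its component number `dig c 0`, etc. -/
def node (c : Fin n) (p : ℕ → Fin m) : ℕ → Fin n
  | 0 => c
  | i + 1 => D.dec (p i) (D.dig c i)

/-- The conjunction of the `k` answers. -/
def term (c : Fin n) (p : ℕ → Fin m) (k : ℕ) : Term m n :=
  (Finset.range k).image (fun i => (p i, node D c p i, true))

/-- `c` belongs to the block of level `k` with digits `w 0, ..., w (k-1)`. -/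
def InB (k : ℕ) (w : ℕ → Fin L) (c : Fin n) : Prop := ∀ i < k, D.dig c i = w i

open Classical in
/-- The negation of: no hole of the block `(k, w)` leads in `k` reads to `x`. -/
noncomputable def Cn (k : ℕ) (w : ℕ → Fin L) (x : Fin n) : Line m n :=
  Finset.univ.filter (fun T => ∃ c : Fin n, InB D k w c ∧ ∃ p : ℕ → Fin m,
    T = term D c p k ∧ node D c p k = x)

open Classical in
/-- All terms of `k` reads which start in `c` and end in a hole number `≥ z`. -/
noncomputable def Pg (k : ℕ) (c : Fin n) (z : ℕ) : Line m n :=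
  Finset.univ.filter (fun T => ∃ p : ℕ → Fin m, T = term D c p k ∧ z ≤ (node D c p k : ℕ))

/-- The context with the codes `X l`, `l < j`, of the first `j` subblocks of the block
`(k, w)` added. -/
noncomputable def Ctx (Γ : Line m n) (k : ℕ) (w : ℕ → Fin L) (X : Fin L → Fin n) (j : ℕ) :
    Line m n :=
  Γ ∪ (Finset.univ.filter (fun l : Fin L => (l : ℕ) < j)).biUnion
    (fun l => Cn D (k + 1) (Function.update w k l) (X l))

/-- The lines of the search for a hole which is not reached from a block: `X` is the set of the
holes which are already matched, `z` the next candidate. -/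
noncomputable def Gz (Γ : Line m n) (k : ℕ) (z : ℕ) (X : Finset (Fin n)) : Line m n :=
  Γ ∪ X.biUnion (fun c => Pg D k c z)

/-- The number of lines for a block of level `t - j`. -/
def NN (t m n L s : ℕ) : ℕ → ℕ
  | 0 => (s + 1) * (2 ^ s * (6 * U t m n ^ 2))
  | j + 1 => n ^ L * (5 * n * U t m n) + L * (n ^ L * NN t m n L s j)

end Pool.Agent.Work.MP_f7ef37_lc.Up
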