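import Pool.Agent.Work.MP_f7ef37_lc.Up.B1
import Pool.Agent.Work.MP_f7ef37_lc.Up.B2
import Pool.Agent.Work.MP_f7ef37_lc.Up.B3

/-!
# From the items to the theorem
-/

set_option autoImplicit false

open Finset

namespace Pool.Agent.Work.MP_f7ef37_lc

/-- `PHP` with `m` pigeons and `n` holes has a Res(t) refutation of size (number of literal
occurrences) at most `S`. A literal is `(i, j, b)`: `x_ij` for `b = true`, `¬ x_ij` for
`b = false`; a line is a finite set of conjunctions of literals, each of between `1` and `t`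
literals. The lines are `P 0, ..., P k`, the last one is empty. Every line is a pigeon axiom, a
collision axiom, an excluded middle, or follows from earlier lines by weakening, conjunction
introduction, conjunction elimination or the cut rule. These are the rules of the frozen
statement of the problem, but the functional and the onto axioms are NOT used; so this is also a
refutation of the onto functional pigeonhole principle. -/
def HasRefutation (t m n : ℕ) (S : ℝ) : Prop :=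
  ∃ k : ℕ, ∃ P : Fin (k + 1) → Finset (Finset (Fin m × Fin n × Bool)),
    (∀ s, ∀ T ∈ P s, 1 ≤ T.card ∧ T.card ≤ t) ∧
    P (Fin.last k) = ∅ ∧
    (∀ s : Fin (k + 1),
      (∃ i : Fin m, P s = Finset.univ.image
          (fun j : Fin n => ({(i, j, true)} : Finset (Fin m × Fin n × Bool)))) ∨
      (∃ i i' : Fin m, ∃ j : Fin n, i ≠ i' ∧ P s = {{(i, j, false)}, {(i', j, false)}}) ∨
      (∃ i : Fin m, ∃ j : Fin n, P s = {{(i, j, true)}, {(i, j, false)}}) ∨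
      (∃ r : Fin (k + 1), r < s ∧ P r ⊆ P s) ∨
      (∃ r r' : Fin (k + 1), r < s ∧ r' < s ∧ ∃ T ∈ P r, ∃ T' ∈ P r',
          (P r).erase T ∪ (P r').erase T' ∪ {T ∪ T'} ⊆ P s) ∨
      (∃ r : Fin (k + 1), r < s ∧ ∃ T ∈ P r, ∃ l ∈ T, insert {l} ((P r).erase T) ⊆ P s) ∨
      (∃ r r' : Fin (k + 1), r < s ∧ r' < s ∧ ∃ T ∈ P r,
          T.image (fun l => ({(l.1, l.2.1, !l.2.2)} : Finset (Fin m × Fin n × Bool))) ⊆ P r' ∧
          (P r).erase T ∪ (P r' \ T.image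
            (fun l => ({(l.1, l.2.1, !l.2.2)} : Finset (Fin m × Fin n × Bool)))) ⊆ P s)) ∧
    (∑ s, ∑ T ∈ P s, (T.card : ℝ)) ≤ S

namespace Up

theorem ref_of_DS (hConv : S_Conv) (hSz : S_Sz) {m n t N : ℕ} {S : ℝ}
    (h : DS t (∅ : Set (Line m n)) {∅} N) (hS : ((N * (t * U t m n) : ℕ) : ℝ) ≤ S) :
    HasRefutation t m n S := by
  obtain ⟨k, hk, P, hok, hlast, hstep⟩ := hConv m n t N h
  refine ⟨k, P, hok, hlast, fun s => ?_, ?_⟩
  · rcases hstep s with (h1 | h1 | h1) | ⟨G, ⟨r, hr, rfl⟩, hG⟩ |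
      ⟨G, ⟨r, hr, rfl⟩, G', ⟨r', hr', rfl⟩, h1⟩ | ⟨G, ⟨r, hr, rfl⟩, h1⟩ |
      ⟨G, ⟨r, hr, rfl⟩, G', ⟨r', hr', rfl⟩, h1⟩
    · exact Or.inl h1
    · exact Or.inr (Or.inl h1)
    · exact Or.inr (Or.inr (Or.inl h1))
    · exact Or.inr (Or.inr (Or.inr (Or.inl ⟨r, hr, hG⟩)))
    · exact Or.inr (Or.inr (Or.inr (Or.inr (Or.inl ⟨r, r', hr, hr', h1⟩))))
    · exact Or.inr (Or.inr (Or.inr (Or.inr (Or.inr (Or.inl ⟨r, hr, h1⟩)))))
    · exact Or.inr (Or.inr (Or.inr (Or.inr (Or.inr (Or.inr ⟨r, r', hr, hr', h1⟩)))))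
  · have h1 : (∑ s, ∑ T ∈ P s, (T.card : ℝ)) = ((∑ s, ∑ T ∈ P s, T.card : ℕ) : ℝ) := by
      push_cast
      rfl
    rw [h1]
    refine le_trans ?_ hS
    have h2 : ∑ s, ∑ T ∈ P s, T.card ≤ ∑ _s : Fin (k + 1), t * U t m n :=
      Finset.sum_le_sum (fun s _ => (hSz m n t (P s) (hok s)).2)
    have h3 : ∑ _s : Fin (k + 1), t * U t m n ≤ N * (t * U t m n) := by
      rw [Finset.sum_const, Finset.card_univ, Fintype.card_fin, smul_eq_mul]
      exact Nat.mul_le_mul_right _ hk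
    exact_mod_cast h2.trans h3

theorem hMer : S_Mer :=
  pr_Mer pr_Mono pr_Trans pr_One (pr_Fam pr_Mono pr_Trans) (pr_Repl pr_Mono pr_Trans pr_One)
    pr_Ext pr_Cut pr_Sz pr_CnOk pr_ExtT

theorem hStB : S_StB := pr_StB pr_Mono pr_Trans (pr_Fam pr_Mono pr_Trans) pr_CnOk

theorem hLf1 : S_Lf1 :=
  pr_Lf1 pr_Mono (pr_Repl pr_Mono pr_Trans pr_One) pr_Conf pr_Sz pr_CnOk pr_NegsOk pr_ConfT

theorem hLf2 : S_Lf2 :=
  pr_Lf2 pr_Mono pr_Trans (pr_Fam pr_Mono pr_Trans) (pr_Repl pr_Mono pr_Trans pr_One) pr_Cut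
    hLf1 pr_Sz pr_CnOk

theorem hLeaf : S_Leaf :=
  pr_Leaf pr_Mono pr_Trans pr_One (pr_Fam pr_Mono pr_Trans) hLf2 pr_CnOk pr_Sz

theorem hRec : S_Rec :=
  pr_Rec pr_Mono pr_Trans (pr_Fam pr_Mono pr_Trans) hMer hStB hLeaf

theorem hTot : S_Tot :=
  pr_Tot pr_Mono pr_Trans (pr_Fam pr_Mono pr_Trans) pr_Top hStB hRec

/-- Refutations of size at most `m ^ (20 t)` if `m ≥ n ^ L` and `n ≤ L ^ (t + 1) ⌊log₂ n⌋`. -/
theorem upper (t n L m : ℕ) (ht : 1 ≤ t) (hn : 2 ≤ n) (hm : n ^ L ≤ m)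
    (hL : n ≤ L ^ (t + 1) * Nat.log 2 n) : HasRefutation t m n ((m : ℝ) ^ (20 * t)) := by
  obtain ⟨hL2, s, hs, hs2, hs3⟩ := pr_Sel n L t ht hn hL
  obtain ⟨D, hD⟩ := pr_Dat m n L t s (by omega) (by omega) hm hs3
  refine ref_of_DS pr_Conv pr_Sz (hTot m n L t s D hn hs ht hD) ?_
  exact_mod_cast pr_Num m n L t s ht hn hL2 hm (hs2.trans hm) hs

/-- The explicit form: for every `t ≥ 1` and `n ≥ 2` there is a number `m > n` of pigeons with
refutations of size at most `exp (80 t n ^ (1 / (t + 1)) (log n) ^ (t / (t + 1)))`. -/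
theorem explicit (t n : ℕ) (ht : 1 ≤ t) (hn : 2 ≤ n) : ∃ m : ℕ, n < m ∧
    HasRefutation t m n
      (Real.exp (80 * t * (n : ℝ) ^ (1 / ((t : ℝ) + 1)) * Real.log n ^ ((t : ℝ) / (t + 1)))) := by
  obtain ⟨L, hL, h1, h2⟩ := asy2 t n ht hn
  refine ⟨n ^ L, ?_, ?_⟩
  · calc n = n ^ 1 := (pow_one n).symm
      _ < n ^ L := Nat.pow_lt_pow_right (by omega) (by omega)
  · obtain ⟨k, P, g1, g2, g3, g4⟩ := upper t n L (n ^ L) ht hn le_rfl h1
    exact ⟨k, P, g1, g2, g3, g4.trans h2⟩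

end Up

end Pool.Agent.Work.MP_f7ef37_lc
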